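import Pool.Agent.Lib.MP_a1b8b7_co.HR.Spec

/-!
# MP_a1b8b7_co, part A: the triangles of a graph as a linear triple system
-/

set_option autoImplicit false

open Finset

namespace HR

variable {n : ℕ}

/-- The vertices of a triple. -/
def Geo_vs (q : Fin n × Fin n × Fin n) : Finset (Fin n) := {q.1, q.2.1, q.2.2}

/-- The vertices of a set of pairs. -/
def Geo_vt (T : Finset (Sym2 (Fin n))) : Finset (Fin n) := T.biUnion fun e => e.toFinset

theorem Geo_pair {q : Fin n × Fin n × Fin n} {a b : Fin n} (ha : a ∈ Geo_vs q)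
    (hb : b ∈ Geo_vs q) (hab : a ≠ b) : s(a, b) ∈ tri q := by
  obtain ⟨x, y, z⟩ := q
  simp only [Geo_vs, Finset.mem_insert, Finset.mem_singleton] at ha hb
  simp only [tri, Finset.mem_insert, Finset.mem_singleton, Sym2.eq_iff]
  rcases ha with rfl | rfl | rfl <;> rcases hb with rfl | rfl | rfl <;> simp_all

theorem Geo_mem {q : Fin n × Fin n × Fin n} {e : Sym2 (Fin n)} (he : e ∈ tri q) {a : Fin n}
    (ha : a ∈ e) : a ∈ Geo_vs q := by
  obtain ⟨x, y, z⟩ := q
  simp only [tri, Finset.mem_insert, Finset.mem_singleton] at he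
  simp only [Geo_vs, Finset.mem_insert, Finset.mem_singleton]
  rcases he with rfl | rfl | rfl <;> rcases Sym2.mem_iff.1 ha with rfl | rfl <;> simp

theorem Geo_edge {G : SimpleGraph (Fin n)} {q : Fin n × Fin n × Fin n} (hq : q ∈ tr G)
    {e : Sym2 (Fin n)} (he : e ∈ tri q) : e ∈ G.edgeSet := by
  obtain ⟨x, y, z⟩ := q
  obtain ⟨h1, h2, h3⟩ := mem_tr.1 hq
  simp only [tri, Finset.mem_insert, Finset.mem_singleton] at he
  rcases he with rfl | rfl | rfl
  · exact h1
  · exact h2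
  · exact h3

theorem Geo_tri_sub {G : SimpleGraph (Fin n)} {q q' : Fin n × Fin n × Fin n} (hq : q ∈ tr G)
    (h : Geo_vs q ⊆ Geo_vs q') : tri q ⊆ tri q' := by
  intro e he
  have h1 := Geo_edge hq he
  have h2 : ∀ a ∈ e, a ∈ Geo_vs q' := fun a ha => h (Geo_mem he ha)
  induction e with
  | _ a b =>
    have hab : a ≠ b := by
      rintro rfl
      exact G.loopless.irrefl a h1
    exact Geo_pair (h2 a (Sym2.mem_mk_left a b)) (h2 b (Sym2.mem_mk_right a b)) hab

theorem Geo_tri_eq {G : SimpleGraph (Fin n)} {q q' : Fin n × Fin n × Fin n} (hq : q ∈ tr G)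
    (hq' : q' ∈ tr G) (h : Geo_vs q = Geo_vs q') : tri q = tri q' :=
  Finset.Subset.antisymm (Geo_tri_sub hq h.subset) (Geo_tri_sub hq' h.symm.subset)

theorem Geo_vt_tri (q : Fin n × Fin n × Fin n) : Geo_vt (tri q) = Geo_vs q := by
  obtain ⟨x, y, z⟩ := q
  ext a
  simp only [Geo_vt, Finset.mem_biUnion, Sym2.mem_toFinset, tri, Finset.mem_insert,
    Finset.mem_singleton, Geo_vs]
  constructor
  · rintro ⟨e, rfl | rfl | rfl, ha⟩ <;> rcases Sym2.mem_iff.1 ha with rfl | rfl <;> simp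
  · rintro (rfl | rfl | rfl)
    · exact ⟨s(a, y), Or.inl rfl, Sym2.mem_mk_left _ _⟩
    · exact ⟨s(x, a), Or.inl rfl, Sym2.mem_mk_right _ _⟩
    · exact ⟨s(x, a), Or.inr (Or.inr rfl), Sym2.mem_mk_right _ _⟩

/-- Two edges determine the vertices. -/
theorem Geo_two {q : Fin n × Fin n × Fin n} {e e' : Sym2 (Fin n)} (he : e ∈ tri q)
    (he' : e' ∈ tri q) (hne : e ≠ e') : Geo_vs q = e.toFinset ∪ e'.toFinset := by
  obtain ⟨x, y, z⟩ := q
  ext a
  simp only [tri, Finset.mem_insert, Finset.mem_singleton] at he he'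
  simp only [Geo_vs, Finset.mem_insert, Finset.mem_singleton, Finset.mem_union, Sym2.mem_toFinset]
  rcases he with rfl | rfl | rfl <;> rcases he' with rfl | rfl | rfl <;>
    simp only [Sym2.mem_iff] <;> tauto

theorem Geo_card_vs (q : Fin n × Fin n × Fin n) : (Geo_vs q).card ≤ 3 := by
  unfold Geo_vs
  exact Finset.card_le_three

theorem Geo_hyp {G : SimpleGraph (Fin n)} {T : Finset (Sym2 (Fin n))} :
    T ∈ hyp G ↔ ∃ q ∈ tr G, tri q = T := by
  rw [hyp, Finset.mem_image]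

theorem t_Geo : S_Geo := by
  classical
  intro n G
  refine ⟨⟨?_, ?_, ?_⟩, ?_, ?_, ?_⟩
  · intro T hT e he
    obtain ⟨q, hq, rfl⟩ := Geo_hyp.1 hT
    exact mem_ed.2 (Geo_edge hq he)
  · intro T hT
    obtain ⟨q, hq, rfl⟩ := Geo_hyp.1 hT
    exact tri_card hq
  · intro T hT T' hT' hne
    obtain ⟨q, hq, rfl⟩ := Geo_hyp.1 hT
    obtain ⟨q', hq', rfl⟩ := Geo_hyp.1 hT'
    by_contra h
    push Not at h
    obtain ⟨e, he, e', he', hee⟩ := Finset.one_lt_card.1 h
    rw [Finset.mem_inter] at he he'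
    exact hne (Geo_tri_eq hq hq'
      ((Geo_two he.1 he'.1 hee).trans (Geo_two he.2 he'.2 hee).symm))
  · have h1 : (ed G).card ≤ n ^ 2 := by
      have h2 : ed G ⊆ (Finset.univ : Finset (Fin n × Fin n)).image (fun p => s(p.1, p.2)) := by
        intro e _
        induction e with
        | _ a b => exact Finset.mem_image.2 ⟨(a, b), Finset.mem_univ _, rfl⟩
      refine (Finset.card_le_card h2).trans (Finset.card_image_le.trans (le_of_eq ?_))
      rw [Finset.card_univ, Fintype.card_prod, Fintype.card_fin, pow_two]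
    exact_mod_cast h1
  · intro g hg
    rw [Finset.sum_comp g tri, Finset.mul_sum]
    refine Finset.sum_le_sum fun T hT => ?_
    obtain ⟨q₀, hq₀, rfl⟩ := Finset.mem_image.1 hT
    rw [nsmul_eq_mul]
    refine mul_le_mul_of_nonneg_right ?_ (hg _)
    have h1 : ((tr G).filter fun q => tri q = tri q₀) ⊆
        Geo_vs q₀ ×ˢ Geo_vs q₀ ×ˢ Geo_vs q₀ := by
      intro q hq
      rw [Finset.mem_filter] at hq
      have h2 : Geo_vs q = Geo_vs q₀ := by
        rw [← Geo_vt_tri, ← Geo_vt_tri, hq.2]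
      rw [← h2, Finset.mem_product, Finset.mem_product]
      simp [Geo_vs]
    have h3 := Finset.card_le_card h1
    rw [Finset.card_product, Finset.card_product] at h3
    have h4 := Geo_card_vs q₀
    have h5 : (Geo_vs q₀).card * ((Geo_vs q₀).card * (Geo_vs q₀).card) ≤ 3 * (3 * 3) :=
      Nat.mul_le_mul h4 (Nat.mul_le_mul h4 h4)
    have h6 := h3.trans h5
    exact_mod_cast h6
  · rintro M ⟨hM, hdis⟩
    refine ⟨M.image Geo_vt, ?_, ?_, ?_⟩
    · intro t ht
      obtain ⟨T, hT, rfl⟩ := Finset.mem_image.1 ht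
      obtain ⟨q, hq, rfl⟩ := Geo_hyp.1 (hM hT)
      obtain ⟨h1, h2, h3⟩ := mem_tr.1 hq
      rw [Geo_vt_tri, SimpleGraph.is3Clique_iff]
      exact ⟨q.1, q.2.1, q.2.2, h1, h3, h2, rfl⟩
    · intro t ht s hs hts
      obtain ⟨T, hT, rfl⟩ := Finset.mem_image.1 ht
      obtain ⟨T', hT', rfl⟩ := Finset.mem_image.1 hs
      obtain ⟨q, hq, rfl⟩ := Geo_hyp.1 (hM hT)
      obtain ⟨q', hq', rfl⟩ := Geo_hyp.1 (hM hT')
      have hne : tri q ≠ tri q' := fun h => hts (by rw [h])
      by_contra h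
      push Not at h
      obtain ⟨a, ha, b, hb, hab⟩ := Finset.one_lt_card.1 h
      rw [Geo_vt_tri, Geo_vt_tri, Finset.mem_inter] at ha hb
      exact (Finset.disjoint_left.1 (hdis _ hT _ hT' hne)) (Geo_pair ha.1 hb.1 hab)
        (Geo_pair ha.2 hb.2 hab)
    · refine Finset.card_image_of_injOn ?_
      intro T hT T' hT' h
      obtain ⟨q, hq, rfl⟩ := Geo_hyp.1 (hM hT)
      obtain ⟨q', hq', rfl⟩ := Geo_hyp.1 (hM hT')
      have h1 : Geo_vt (tri q) = Geo_vt (tri q') := h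
      rw [Geo_vt_tri, Geo_vt_tri] at h1
      exact Geo_tri_eq hq hq' h1

end HR
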