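import Pool.Agent.Lib.MP_a1b8b7_co.HR.Spec
import Pool.Agent.Lib.MP_acf82c_lc.Minimax

/-!
# MP_a1b8b7_co, HR/LP: LP duality with capacity from the finite minimax theorem
-/

set_option autoImplicit false

open Finset

namespace HR

/-- indicator -/
def LP_ind {V : Type} [DecidableEq V] (v : V) (W : Finset V) : ℝ := if v ∈ W then 1 else 0

theorem LP_ind_nn {V : Type} [DecidableEq V] (v : V) (W : Finset V) : 0 ≤ LP_ind v W := by
  unfold LP_ind; split_ifs <;> norm_num

theorem LP_ind_le {V : Type} [DecidableEq V] (v : V) (W : Finset V) : LP_ind v W ≤ 1 := by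
  unfold LP_ind; split_ifs <;> norm_num

/-- `∑_{T ∈ S} c T = ∑_{T ∈ H} 1[T ∈ S] c T` for `S ⊆ H` -/
theorem LP_sum_ind {X : Type} [DecidableEq X] (S H : Finset X) (hS : S ⊆ H) (c : X → ℝ) :
    ∑ T ∈ S, c T = ∑ T ∈ H, (if T ∈ S then (1 : ℝ) else 0) * c T := by
  rw [← sum_subset hS (f := fun T => (if T ∈ S then (1 : ℝ) else 0) * c T)]
  · refine sum_congr rfl fun T hT => ?_
    rw [if_pos hT, one_mul]
  · intro T _ hT
    rw [if_neg hT, zero_mul]

theorem t_LP : S_LP := by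
  intro V _ U H δ hHU hδ
  classical
  haveI : Nonempty ↥(U.powerset) := ⟨⟨∅, empty_mem_powerset U⟩⟩
  haveI : Nonempty ↥(H.powerset) := ⟨⟨∅, empty_mem_powerset H⟩⟩
  obtain ⟨val, p, q, hp0, hp1, hq0, hq1, hle, hge⟩ :=
    MPacf82c.minimax (S := ↥(U.powerset)) (H := ↥(H.powerset))
      (fun W S => δ * ∑ T ∈ S.1, (1 - ∑ v ∈ T, LP_ind v W.1) + ∑ v ∈ U, LP_ind v W.1)
  set w : V → ℝ := fun v => ∑ W, p W * LP_ind v W.1 with hw
  set f : Finset V → ℝ := fun T => δ * ∑ S, q S * (if T ∈ S.1 then (1 : ℝ) else 0) with hf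
  have hf0 : ∀ T, 0 ≤ f T ∧ f T ≤ δ := by
    intro T
    have h1 : 0 ≤ ∑ S, q S * (if T ∈ S.1 then (1 : ℝ) else 0) :=
      sum_nonneg fun S _ => mul_nonneg (hq0 S) (by split_ifs <;> norm_num)
    have h2 : ∑ S, q S * (if T ∈ S.1 then (1 : ℝ) else 0) ≤ 1 := by
      refine le_trans (sum_le_sum fun S _ => ?_) hq1.le
      refine mul_le_of_le_one_right (hq0 S) ?_
      split_ifs <;> norm_num
    refine ⟨mul_nonneg hδ h1, ?_⟩
    exact mul_le_of_le_one_right hδ h2
  have hw0 : ∀ v, 0 ≤ w v ∧ w v ≤ 1 := by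
    intro v
    refine ⟨sum_nonneg fun W _ => mul_nonneg (hp0 W) (LP_ind_nn _ _), ?_⟩
    exact le_trans (sum_le_sum fun W _ => mul_le_of_le_one_right (hp0 W) (LP_ind_le _ _)) hp1.le
  -- the column inequality
  have hcol : ∀ S : Finset (Finset V), S ⊆ H →
      δ * ∑ T ∈ S, (1 - ∑ v ∈ T, w v) + ∑ v ∈ U, w v ≤ val := by
    intro S hS
    refine le_trans (le_of_eq ?_) (hle ⟨S, mem_powerset.2 hS⟩)
    simp only
    have e1 : ∀ T : Finset V, (1 - ∑ v ∈ T, w v) =
        ∑ W, p W * (1 - ∑ v ∈ T, LP_ind v W.1) := by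
      intro T
      simp only [mul_sub, mul_one, sum_sub_distrib, hp1, mul_sum]
      congr 1
      rw [sum_comm]
    have e2 : ∑ v ∈ U, w v = ∑ W, p W * ∑ v ∈ U, LP_ind v W.1 := by
      simp only [mul_sum]
      rw [sum_comm]
    rw [e2, sum_congr rfl (fun T _ => e1 T), sum_comm, mul_sum, ← sum_add_distrib]
    refine sum_congr rfl fun W _ => ?_
    rw [mul_add, ← mul_sum]
    ring
  -- the row inequality
  have hrow : ∀ W : Finset V, W ⊆ U →
      val ≤ ∑ T ∈ H, f T + ∑ v ∈ U, LP_ind v W * (1 - deg H f v) := by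
    intro W hW
    refine (hge ⟨W, mem_powerset.2 hW⟩).trans (le_of_eq ?_)
    simp only
    have e1 : ∑ S : ↥(H.powerset), q S * (δ * ∑ T ∈ S.1, (1 - ∑ v ∈ T, LP_ind v W) +
        ∑ v ∈ U, LP_ind v W) =
        ∑ T ∈ H, f T * (1 - ∑ v ∈ T, LP_ind v W) + ∑ v ∈ U, LP_ind v W := by
      have e2 : ∀ S : ↥(H.powerset), q S * (δ * ∑ T ∈ S.1, (1 - ∑ v ∈ T, LP_ind v W) +
          ∑ v ∈ U, LP_ind v W) =
          ∑ T ∈ H, δ * (q S * (if T ∈ S.1 then (1 : ℝ) else 0)) * (1 - ∑ v ∈ T, LP_ind v W) +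
            q S * ∑ v ∈ U, LP_ind v W := by
        intro S
        rw [mul_add, LP_sum_ind S.1 H (mem_powerset.1 S.2) (fun T => 1 - ∑ v ∈ T, LP_ind v W),
          mul_sum, mul_sum]
        congr 1
        exact sum_congr rfl fun T _ => by ring
      rw [sum_congr rfl (fun S _ => e2 S), sum_add_distrib, ← sum_mul, hq1, one_mul, sum_comm]
      congr 1
      refine sum_congr rfl fun T _ => ?_
      rw [← sum_mul, hf]
      simp only
      rw [← mul_sum]
    rw [e1]
    have e3 : ∑ T ∈ H, f T * (1 - ∑ v ∈ T, LP_ind v W) =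
        ∑ T ∈ H, f T - ∑ v ∈ U, LP_ind v W * deg H f v := by
      have e4 : ∑ v ∈ U, LP_ind v W * deg H f v =
          ∑ T ∈ H, f T * ∑ v ∈ T, LP_ind v W := by
        have e5 : ∀ v ∈ U, LP_ind v W * deg H f v =
            ∑ T ∈ H, (if v ∈ T then (1 : ℝ) else 0) * (LP_ind v W * f T) := by
          intro v _
          unfold deg
          rw [sum_filter, mul_sum]
          refine sum_congr rfl fun T _ => ?_
          split_ifs <;> ring
        rw [sum_congr rfl e5, sum_comm]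
        refine sum_congr rfl fun T hT => ?_
        rw [mul_sum, LP_sum_ind T U (hHU T hT) (fun v => f T * LP_ind v W)]
        exact sum_congr rfl fun v _ => by ring
      rw [e4, ← sum_sub_distrib]
      exact sum_congr rfl fun T _ => by ring
    rw [e3]
    have e6 : ∑ v ∈ U, LP_ind v W * (1 - deg H f v) =
        ∑ v ∈ U, LP_ind v W - ∑ v ∈ U, LP_ind v W * deg H f v := by
      rw [← sum_sub_distrib]
      exact sum_congr rfl fun v _ => by ring
    rw [e6]
    ring
  refine ⟨f, w, fun T _ => hf0 T, hw0, ?_⟩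
  have h1 := hcol (H.filter (fun T => 0 < 1 - ∑ v ∈ T, w v)) (filter_subset _ _)
  have h2 := hrow (U.filter (fun v => 1 < deg H f v)) (filter_subset _ _)
  have e7 : ∑ T ∈ H.filter (fun T => 0 < 1 - ∑ v ∈ T, w v), (1 - ∑ v ∈ T, w v) =
      ∑ T ∈ H, max (1 - ∑ v ∈ T, w v) 0 := by
    rw [sum_filter]
    refine sum_congr rfl fun T _ => ?_
    split_ifs with h
    · rw [max_eq_left h.le]
    · rw [max_eq_right (not_lt.1 h)]
  have e8 : ∑ v ∈ U, LP_ind v (U.filter (fun v => 1 < deg H f v)) * (1 - deg H f v) =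
      - ∑ v ∈ U, max (deg H f v - 1) 0 := by
    rw [← sum_neg_distrib]
    refine sum_congr rfl fun v hv => ?_
    by_cases h : 1 < deg H f v
    · have e9 : LP_ind v (U.filter (fun v => 1 < deg H f v)) = 1 :=
        if_pos (mem_filter.2 ⟨hv, h⟩)
      rw [e9, max_eq_left (by linarith)]
      ring
    · have e10 : v ∉ U.filter (fun v => 1 < deg H f v) := fun h' => h (mem_filter.1 h').2
      have e9 : LP_ind v (U.filter (fun v => 1 < deg H f v)) = 0 := if_neg e10
      rw [e9, max_eq_right (by linarith)]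
      ring
  rw [e7] at h1
  rw [e8] at h2
  linarith

end HR
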