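import Pool.Agent.Lib.MP_a1b8b7_co.HR.Spec

/-!
# MP_a1b8b7_co, part A: linearity
-/

set_option autoImplicit false

open Finset

namespace HR

private theorem Lin_card {V : Type} [DecidableEq V] {U : Finset V} {H : Finset (Finset V)}
    (hS : Sys U H) {v : V} {T T' : Finset V} (hT : T ∈ st H v) (hT' : T' ∈ st H v)
    (hne : T ≠ T') : ((nb H T ∩ nb H T') \ st H v).card ≤ 4 := by
  have mT : T ∈ H ∧ v ∈ T := by simpa [st] using hT
  have mT' : T' ∈ H ∧ v ∈ T' := by simpa [st] using hT'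
  have hsub : (nb H T ∩ nb H T') \ st H v ⊆
      (((T.erase v) ×ˢ (T'.erase v)).biUnion
        (fun p => H.filter (fun T'' => p.1 ∈ T'' ∧ p.2 ∈ T'' ∧ p.1 ≠ p.2))) := by
    intro T'' h
    simp only [nb, st, Finset.mem_sdiff, Finset.mem_inter, Finset.mem_filter, not_and] at h
    obtain ⟨⟨⟨h0, h1⟩, _, h2⟩, h3⟩ := h
    have hv : v ∉ T'' := h3 h0
    rw [Finset.not_disjoint_iff] at h1 h2
    obtain ⟨a, ha1, ha2⟩ := h1
    obtain ⟨b, hb1, hb2⟩ := h2
    have hav : a ≠ v := fun h => hv (h ▸ ha2)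
    have hbv : b ≠ v := fun h => hv (h ▸ hb2)
    have hab : a ≠ b := by
      intro h
      subst h
      have h4 := hS.lin T mT.1 T' mT'.1 hne
      have h5 : ({a, v} : Finset V) ⊆ T ∩ T' := by
        intro c hc
        simp only [Finset.mem_insert, Finset.mem_singleton] at hc
        rcases hc with rfl | rfl
        · exact Finset.mem_inter.2 ⟨ha1, hb1⟩
        · exact Finset.mem_inter.2 ⟨mT.2, mT'.2⟩
      have h6 := Finset.card_le_card h5
      rw [Finset.card_pair hav] at h6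
      omega
    simp only [Finset.mem_biUnion, Finset.mem_product, Finset.mem_erase, Finset.mem_filter]
    exact ⟨(a, b), ⟨⟨hav, ha1⟩, ⟨hbv, hb1⟩⟩, h0, ha2, hb2, hab⟩
  refine (Finset.card_le_card hsub).trans ?_
  refine (Finset.card_biUnion_le_card_mul _ _ 1 ?_).trans ?_
  · intro p _
    rw [Finset.card_le_one]
    intro A hA B hB
    simp only [Finset.mem_filter] at hA hB
    by_contra hAB
    have h4 := hS.lin A hA.1 B hB.1 hAB
    have h5 : ({p.1, p.2} : Finset V) ⊆ A ∩ B := by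
      intro c hc
      simp only [Finset.mem_insert, Finset.mem_singleton] at hc
      rcases hc with rfl | rfl
      · exact Finset.mem_inter.2 ⟨hA.2.1, hB.2.1⟩
      · exact Finset.mem_inter.2 ⟨hA.2.2.1, hB.2.2.1⟩
    have h6 := Finset.card_le_card h5
    rw [Finset.card_pair hA.2.2.2] at h6
    omega
  · rw [Finset.card_product, Finset.card_erase_of_mem mT.2, Finset.card_erase_of_mem mT'.2,
      hS.three T mT.1, hS.three T' mT'.1]

theorem t_Lin (hStR : S_StR) : S_Lin := by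
  intro V _ U H f δ θ hS hF hδ hδ2 hθ hθ6 v _ T hT T' hT' hne
  obtain ⟨h1, -, -, -, -, -⟩ := hStR V U H f δ θ hS hF (by linarith) hθ hθ6
  have hst : st H v ⊆ nb H T ∩ nb H T' := by
    intro A hA
    simp only [st, Finset.mem_filter] at hA hT hT'
    simp only [nb, Finset.mem_inter, Finset.mem_filter]
    exact ⟨⟨hA.1, Finset.not_disjoint_iff.2 ⟨v, hT.2, hA.2⟩⟩,
      ⟨hA.1, Finset.not_disjoint_iff.2 ⟨v, hT'.2, hA.2⟩⟩⟩
  have hnbH : ∀ A, nb H A ⊆ H := fun A => Finset.filter_subset _ _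
  have hnn : ∀ K, K ⊆ H → 0 ≤ R θ f K := by
    intro K hK
    unfold R
    refine Finset.prod_nonneg fun A hA => ?_
    have := (h1 A (hK hA)).2
    linarith
  have e1 : R θ f (nb H T ∪ nb H T') * R θ f (nb H T ∩ nb H T') =
      R θ f (nb H T) * R θ f (nb H T') := by
    unfold R
    exact Finset.prod_union_inter
  have e2 : R θ f ((nb H T ∩ nb H T') \ st H v) * R θ f (st H v) =
      R θ f (nb H T ∩ nb H T') := by
    unfold R
    exact Finset.prod_sdiff hst
  obtain ⟨x, hx⟩ : ∃ x, x = θ * δ := ⟨_, rfl⟩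
  have hx0 : 0 ≤ x := by rw [hx]; positivity
  have hx1 : x ≤ 1 / 12 := by
    rw [hx]
    calc θ * δ ≤ 1 / 6 * (1 / 2) := mul_le_mul hθ6 hδ2 hδ.le (by norm_num)
      _ = 1 / 12 := by norm_num
  have hZ : (1 - x) ^ 4 ≤ R θ f ((nb H T ∩ nb H T') \ st H v) := by
    have hc := Lin_card hS hT hT' hne
    calc (1 - x) ^ 4 ≤ (1 - x) ^ ((nb H T ∩ nb H T') \ st H v).card :=
          pow_le_pow_of_le_one (by linarith) (by linarith) hc
      _ = ∏ _A ∈ (nb H T ∩ nb H T') \ st H v, (1 - x) := by rw [Finset.prod_const]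
      _ ≤ R θ f ((nb H T ∩ nb H T') \ st H v) := by
          unfold R
          refine Finset.prod_le_prod (fun A _ => by linarith) fun A hA => ?_
          have hAH : A ∈ H := hnbH T (Finset.mem_inter.1 (Finset.mem_sdiff.1 hA).1).1
          have h3 : θ * f A ≤ θ * δ := mul_le_mul_of_nonneg_left (hF.le A hAH) hθ
          rw [hx]
          linarith
  have hone : 1 ≤ (1 + 8 * x) * (1 - x) ^ 4 := by
    have h3 : 1 - 4 * x ≤ (1 - x) ^ 4 := by nlinarith [sq_nonneg x, sq_nonneg (x * (2 - x))]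
    have h4 : (1 + 8 * x) * (1 - 4 * x) ≤ (1 + 8 * x) * (1 - x) ^ 4 :=
      mul_le_mul_of_nonneg_left h3 (by linarith)
    nlinarith
  have hQ : 0 ≤ R θ f (nb H T ∪ nb H T') * R θ f (st H v) :=
    mul_nonneg (hnn _ (Finset.union_subset (hnbH T) (hnbH T')))
      (hnn _ (Finset.filter_subset _ _))
  rw [← hx, ← e1, ← e2]
  calc R θ f (nb H T ∪ nb H T') * R θ f (st H v)
      = R θ f (nb H T ∪ nb H T') * R θ f (st H v) * 1 := by ring
    _ ≤ R θ f (nb H T ∪ nb H T') * R θ f (st H v) * ((1 + 8 * x) * (1 - x) ^ 4) :=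
        mul_le_mul_of_nonneg_left hone hQ
    _ ≤ R θ f (nb H T ∪ nb H T') * R θ f (st H v) *
        ((1 + 8 * x) * R θ f ((nb H T ∩ nb H T') \ st H v)) :=
        mul_le_mul_of_nonneg_left (mul_le_mul_of_nonneg_left hZ (by linarith)) hQ
    _ = _ := by ring

end HR
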