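import Pool.Agent.Lib.MP_a1b8b7_co.HR.Spec

/-!
# MP_a1b8b7_co, part A: assembly of the theorem of Haxell and Roedl for triangles
-/

set_option autoImplicit false

open Finset

namespace HR

theorem Main_dc {V : Type} [DecidableEq V] {U : Finset V} {H : Finset (Finset V)}
    (hs : Sys U H) (f : Finset V → ℝ) : ∑ v ∈ U, deg H f v = 3 * ∑ T ∈ H, f T := by
  have h1 : ∀ v ∈ U, deg H f v = ∑ T ∈ H, if v ∈ T then f T else 0 := by
    intro v _
    rw [deg, Finset.sum_filter]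
  rw [Finset.sum_congr rfl h1, Finset.sum_comm, Finset.mul_sum]
  refine Finset.sum_congr rfl fun T hT => ?_
  rw [← Finset.sum_filter, Finset.sum_const, nsmul_eq_mul]
  have h2 : (U.filter fun v => v ∈ T) = T := by
    ext v
    rw [Finset.mem_filter]
    exact ⟨fun h => h.2, fun h => ⟨hs.sub T hT h, h⟩⟩
  rw [h2, hs.three T hT]
  norm_num

theorem t_Main (hRep : S_Rep) (hNibF : S_NibF) (hLP : S_LP) (hRemC : S_RemC) (hGeo : S_Geo) :
    S_Main := by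
  classical
  intro ε hε
  obtain ⟨δ, hδ, hNib⟩ := hNibF (ε / 2) (half_pos hε)
  obtain ⟨η, hη, hRem⟩ := hRemC (ε / 2) (half_pos hε)
  obtain ⟨N, hN⟩ := exists_nat_ge (27 / (δ * η))
  refine ⟨N, fun n hn G => ?_⟩
  obtain ⟨hSys, hcard, hsum, hpack⟩ := hGeo n G
  obtain ⟨f, w, hf, hw, hlp⟩ := hLP (Sym2 (Fin n)) (ed G) (hyp G) δ hSys.sub hδ.le
  have hf0 : 0 ≤ ∑ T ∈ hyp G, f T := Finset.sum_nonneg fun T hT => (hf T hT).1
  have hw0 : 0 ≤ ∑ v ∈ ed G, w v := Finset.sum_nonneg fun v _ => (hw v).1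
  have hval : ∑ T ∈ hyp G, f T - ∑ v ∈ ed G, max (deg (hyp G) f v - 1) 0 ≤
      ((ed G).card : ℝ) := by
    have h1 : ∑ v ∈ ed G, deg (hyp G) f v ≤
        ((ed G).card : ℝ) + ∑ v ∈ ed G, max (deg (hyp G) f v - 1) 0 := by
      have h2 : ((ed G).card : ℝ) = ∑ v ∈ ed G, (1 : ℝ) := by
        rw [Finset.sum_const, nsmul_eq_mul, mul_one]
      rw [h2, ← Finset.sum_add_distrib]
      refine Finset.sum_le_sum fun v _ => ?_
      have h3 := le_max_left (deg (hyp G) f v - 1) 0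
      linarith
    rw [Main_dc hSys f] at h1
    linarith
  have hdef : ∑ T ∈ hyp G, max (1 - ∑ v ∈ T, w v) 0 ≤ (n : ℝ) ^ 2 / δ := by
    rw [le_div_iff₀ hδ]
    linarith
  have hord : ∑ q ∈ tr G, max (1 - ∑ e ∈ tri q, w e) 0 ≤ η * (n : ℝ) ^ 3 := by
    refine (hsum (fun T => max (1 - ∑ e ∈ T, w e) 0) fun T => le_max_right _ _).trans ?_
    have hn' : (N : ℝ) ≤ n := Nat.cast_le.2 hn
    have h1 : 27 / (δ * η) ≤ (n : ℝ) := hN.trans hn'
    rw [div_le_iff₀ (mul_pos hδ hη)] at h1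
    have h2 : 27 * ((n : ℝ) ^ 2 / δ) ≤ η * (n : ℝ) ^ 3 := by
      rw [← mul_div_assoc, div_le_iff₀ hδ]
      have h3 := mul_le_mul_of_nonneg_left h1 (sq_nonneg (n : ℝ))
      calc 27 * (n : ℝ) ^ 2 = (n : ℝ) ^ 2 * 27 := by ring
        _ ≤ (n : ℝ) ^ 2 * (n * (δ * η)) := h3
        _ = η * (n : ℝ) ^ 3 * δ := by ring
    refine le_trans ?_ h2
    exact mul_le_mul_of_nonneg_left hdef (by norm_num)
  obtain ⟨f', hf', hdeg', hsum'⟩ := hRep (Sym2 (Fin n)) (ed G) (hyp G) f hSys.sub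
    fun T hT => (hf T hT).1
  obtain ⟨M, hM, hMc⟩ := hNib (Sym2 (Fin n)) (ed G) (hyp G) f' hSys
    ⟨fun T hT => (hf' T hT).1, fun T hT => (hf' T hT).2.trans (hf T hT).2, hdeg'⟩
  obtain ⟨P, hP1, hP2, hP3⟩ := hpack M hM
  obtain ⟨w', hw1, hw2, hw3, hw4⟩ := hRem n G w hw hord
  refine ⟨w', hw1, hw2, fun x y z hxy hyz hxz => ?_, P, hP1, hP2, ?_⟩
  · have hq : (x, y, z) ∈ tr G := mem_tr.2 ⟨hxy, hyz, hxz⟩
    have h1 := hw3 _ hq
    rw [tri_sum hq w'] at h1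
    exact h1
  · have h1 : ∑ e, w' e = ∑ e ∈ ed G, w' e := by
      symm
      refine Finset.sum_subset (Finset.subset_univ _) fun e _ he => ?_
      exact hw2 e fun h => he (mem_ed.2 h)
    rw [h1, hP3]
    have hδM : 0 ≤ δ * ∑ T ∈ hyp G, max (1 - ∑ v ∈ T, w v) 0 :=
      mul_nonneg hδ.le (Finset.sum_nonneg fun T _ => le_max_right _ _)
    have h2 : ε / 2 * ((ed G).card : ℝ) ≤ ε / 2 * (n : ℝ) ^ 2 :=
      mul_le_mul_of_nonneg_left hcard (half_pos hε).le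
    linarith

end HR
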