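import Pool.Agent.Lib.MP_a1b8b7_co.HR.Spec

/-!
# MP_a1b8b7_co, part A: induction on the rounds of the nibble
-/

set_option autoImplicit false

open Finset

namespace HR

theorem Nib_mem_surv {V : Type} [DecidableEq V] {H S : Finset (Finset V)} {T : Finset V} :
    T ∈ surv H S ↔ T ∈ H ∧ ∀ T' ∈ S, Disjoint T T' := by
  unfold surv
  rw [Finset.mem_filter]

theorem Nib_mem_left {V : Type} [DecidableEq V] {U : Finset V} {S : Finset (Finset V)} {v : V} :
    v ∈ left U S ↔ v ∈ U ∧ ∀ T' ∈ S, v ∉ T' := by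
  unfold left
  rw [Finset.mem_filter]

theorem Nib_mem_isol {V : Type} [DecidableEq V] {S : Finset (Finset V)} {T : Finset V} :
    T ∈ isol S ↔ T ∈ S ∧ ∀ T' ∈ S, T' ≠ T → Disjoint T T' := by
  unfold isol
  rw [Finset.mem_filter]

theorem Nib_sub {V : Type} [DecidableEq V] {U : Finset V} {H S : Finset (Finset V)}
    (h : Sys U H) : ∀ T ∈ surv H S, T ⊆ left U S := by
  intro T hT v hv
  obtain ⟨h1, h2⟩ := Nib_mem_surv.1 hT
  refine Nib_mem_left.2 ⟨h.sub T h1 hv, fun T' hT' hv' => ?_⟩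
  exact Finset.disjoint_left.1 (h2 T' hT') hv hv'

theorem Nib_sys {V : Type} [DecidableEq V] {U : Finset V} {H S : Finset (Finset V)}
    (h : Sys U H) : Sys (left U S) (surv H S) :=
  ⟨Nib_sub h, fun T hT => h.three T (Nib_mem_surv.1 hT).1,
    fun T hT T' hT' hne => h.lin T (Nib_mem_surv.1 hT).1 T' (Nib_mem_surv.1 hT').1 hne⟩

theorem Nib_mat {V : Type} [DecidableEq V] {U : Finset V} {H S M' : Finset (Finset V)}
    (h : Sys U H) (hS : S ⊆ H) (hM : IsMat (surv H S) M') :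
    IsMat H (isol S ∪ M') ∧ (isol S ∪ M').card = (isol S).card + M'.card := by
  refine ⟨⟨?_, ?_⟩, ?_⟩
  · intro T hT
    rcases Finset.mem_union.1 hT with h1 | h1
    · exact hS (Nib_mem_isol.1 h1).1
    · exact (Nib_mem_surv.1 (hM.1 h1)).1
  · intro T hT T' hT' hne
    rcases Finset.mem_union.1 hT with h1 | h1
    · rcases Finset.mem_union.1 hT' with h2 | h2
      · exact (Nib_mem_isol.1 h1).2 T' (Nib_mem_isol.1 h2).1 hne.symm
      · exact ((Nib_mem_surv.1 (hM.1 h2)).2 T (Nib_mem_isol.1 h1).1).symm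
    · rcases Finset.mem_union.1 hT' with h2 | h2
      · exact (Nib_mem_surv.1 (hM.1 h1)).2 T' (Nib_mem_isol.1 h2).1
      · exact hM.2 T h1 T' h2 hne
  · apply Finset.card_union_of_disjoint
    rw [Finset.disjoint_left]
    intro T h1 h2
    have h3 := Nib_mem_surv.1 (hM.1 h2)
    have h4 := h3.2 T (Nib_mem_isol.1 h1).1
    rw [Finset.disjoint_self_iff_empty] at h4
    have h5 := h.three T h3.1
    rw [h4] at h5
    exact absurd h5 (by norm_num)

theorem t_Nib (hStR : S_StR) (hStS : S_StS) (hRep : S_Rep) : S_Nib := by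
  intro θ D hθ0 hθ hD r
  have h3 : 0 < 1 - 3 * θ := by linarith
  have h3' : 1 - 3 * θ ≤ 1 := by linarith
  have hκ0 : 0 ≤ 1 - θ := by linarith
  have hκ1 : 1 - θ ≤ 1 := by linarith
  induction r with
  | zero =>
    intro V _ U H f δ hs hf hδ hδD
    refine ⟨∅, ⟨Finset.empty_subset _, fun T hT => absurd hT (Finset.notMem_empty _)⟩, ?_⟩
    simp
  | succ r ih =>
    intro V _ U H f δ hs hf hδ hδD
    have hpow : (1 - 3 * θ) ^ (r + 1) ≤ 1 := pow_le_one₀ h3.le h3'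
    have hpow0 : 0 < (1 - 3 * θ) ^ (r + 1) := pow_pos h3 _
    have hδD' : δ ≤ D := by
      refine le_trans ?_ hδD
      rw [le_div_iff₀ hpow0]
      nlinarith
    have hδ2 : δ ≤ 1 / 2 := hδD'.trans hD
    have hδ1 : δ ≤ 1 := by linarith
    have hc0 : 0 ≤ 1 - (1 - θ) ^ r := sub_nonneg.2 (pow_le_one₀ hκ0 hκ1)
    have hc1 : 1 - (1 - θ) ^ r ≤ 1 := by
      have := pow_nonneg hκ0 r
      linarith
    obtain ⟨-, -, -, hnw, -, -⟩ := hStR V U H f δ θ hs hf hδ1 hθ0 hθ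
    obtain ⟨S, hSH, hS⟩ := hStS V U H f δ θ hs hf hδ hδ2 hθ0 hθ _ hc0 hc1
    obtain ⟨f'', hf1, hf2, hf3⟩ := hRep V (left U S) (surv H S) (nw H θ f) (Nib_sub hs)
      (fun T hT => (hnw T (Nib_mem_surv.1 hT).1).1)
    have hfrac : Frac (left U S) (surv H S) f'' (δ / (1 - 3 * θ)) := by
      refine ⟨fun T hT => (hf1 T hT).1, fun T hT => ?_, hf2⟩
      have hTH := (Nib_mem_surv.1 hT).1
      refine (hf1 T hT).2.trans ((hnw T hTH).2.trans ?_)
      exact div_le_div_of_nonneg_right (hf.le T hTH) h3.le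
    have hδ' : 0 < δ / (1 - 3 * θ) := div_pos hδ h3
    have hδ'D : δ / (1 - 3 * θ) / (1 - 3 * θ) ^ r ≤ D := by
      rw [div_div, ← pow_succ']
      exact hδD
    obtain ⟨M', hM', hM'c⟩ := ih V (left U S) (surv H S) f'' (δ / (1 - 3 * θ)) (Nib_sys hs)
      hfrac hδ' hδ'D
    obtain ⟨hM, hMc⟩ := Nib_mat hs hSH hM'
    refine ⟨isol S ∪ M', hM, ?_⟩
    rw [hMc]
    have hU : (left U S).card ≤ U.card := Finset.card_le_card (Finset.filter_subset _ _)
    have hU' : ((left U S).card : ℝ) ≤ U.card := by exact_mod_cast hU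
    have hsq : Real.sqrt δ ≤ Real.sqrt D := Real.sqrt_le_sqrt hδD'
    have hsD : 0 ≤ Real.sqrt D := Real.sqrt_nonneg _
    have hsum : ∑ v ∈ left U S, max (deg (surv H S) (nw H θ f) v - 1) 0 ≤
        ∑ v ∈ U, max (deg (surv H S) (nw H θ f) v - 1) 0 :=
      Finset.sum_le_sum_of_subset_of_nonneg (Finset.filter_subset _ _)
        (fun _ _ _ => le_max_right _ _)
    have e1 : (1 - (1 - θ) ^ r) * (∑ T ∈ surv H S, nw H θ f T -
        ∑ v ∈ U, max (deg (surv H S) (nw H θ f) v - 1) 0) ≤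
        (1 - (1 - θ) ^ r) * ∑ T ∈ surv H S, f'' T :=
      mul_le_mul_of_nonneg_left (by linarith) hc0
    have e2 : (r : ℝ) * (θ ^ 2 + 2 * Real.sqrt D) * ((left U S).card : ℝ) ≤
        r * (θ ^ 2 + 2 * Real.sqrt D) * U.card :=
      mul_le_mul_of_nonneg_left hU' (by positivity)
    have e3 : (θ ^ 2 + 2 * Real.sqrt δ) * (U.card : ℝ) ≤
        (θ ^ 2 + 2 * Real.sqrt D) * U.card :=
      mul_le_mul_of_nonneg_right (by linarith) (Nat.cast_nonneg _)
    have e4 : θ + (1 - (1 - θ) ^ r) * (1 - θ) = 1 - (1 - θ) ^ (r + 1) := by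
      rw [pow_succ]; ring
    rw [e4] at hS
    push_cast
    have e5 : ((r : ℝ) + 1) * (θ ^ 2 + 2 * Real.sqrt D) * U.card =
        r * (θ ^ 2 + 2 * Real.sqrt D) * U.card + (θ ^ 2 + 2 * Real.sqrt D) * U.card := by ring
    rw [e5]
    linarith

end HR
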