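import Pool.Agent.Lib.MP_a1b8b7_co.HR.Spec
import Pool.Agent.Lib.MP_a1b8b7_co.A2

/-!
# MP_a1b8b7_co, HR/RemC: repairing an almost cover

The proof is in `Pool/Agent/Lib/MP_a1b8b7_co/A2.lean` (theorem `Pool.Agent.MP_a1b8b7_co.A2`); the
hypothesis `S_RemT` is not needed.
-/

set_option autoImplicit false

open Finset

namespace HR

theorem t_RemC0 : S_RemC := by
  classical
  intro ε hε
  obtain ⟨η, hη, h⟩ := Pool.Agent.MP_a1b8b7_co.A2.{0} ε hε
  refine ⟨η, hη, ?_⟩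
  intro n G w hw hdef
  have hmem : ∀ q : Fin n × Fin n × Fin n, q ∈ tr G ↔
      q ∈ (univ : Finset (Fin n × Fin n × Fin n)).filter
        (fun t => G.Adj t.1 t.2.1 ∧ G.Adj t.2.1 t.2.2 ∧ G.Adj t.2.2 t.1) := by
    intro q
    rw [mem_tr, mem_filter]
    constructor
    · rintro ⟨h1, h2, h3⟩
      exact ⟨mem_univ _, h1, h2, h3.symm⟩
    · rintro ⟨-, h1, h2, h3⟩
      exact ⟨h1, h2, h3.symm⟩
  have htr : tr G = (univ : Finset (Fin n × Fin n × Fin n)).filter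
        (fun t => G.Adj t.1 t.2.1 ∧ G.Adj t.2.1 t.2.2 ∧ G.Adj t.2.2 t.1) := by
    ext q
    exact hmem q
  have hsum : ∑ t ∈ (univ : Finset (Fin n × Fin n × Fin n)).filter
      (fun t => G.Adj t.1 t.2.1 ∧ G.Adj t.2.1 t.2.2 ∧ G.Adj t.2.2 t.1),
      max 0 (1 - (w s(t.1, t.2.1) + w s(t.2.1, t.2.2) + w s(t.2.2, t.1))) ≤
        η * (Fintype.card (Fin n) : ℝ) ^ 3 := by
    rw [Fintype.card_fin]
    refine le_trans (le_of_eq ?_) hdef
    rw [← htr]
    refine sum_congr rfl fun q hq => ?_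
    rw [tri_sum hq, max_comm, Sym2.eq_swap (a := q.2.2) (b := q.1)]
  obtain ⟨w', h1, h2, h3, h4⟩ := h (Fin n) G w (fun e => (hw e).1) hsum
  refine ⟨fun e => if e ∈ G.edgeSet then w' e else 0, ?_, ?_, ?_, ?_⟩
  · intro e
    by_cases he : e ∈ G.edgeSet
    · simp only [he, if_true]
      exact ⟨h1 e, h2 e⟩
    · simp only [he, if_false]
      exact ⟨le_rfl, zero_le_one⟩
  · intro e he
    simp only [he, if_false]
  · intro q hq
    rw [tri_sum hq]
    obtain ⟨a1, a2, a3⟩ := mem_tr.1 hq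
    have b1 : s(q.1, q.2.1) ∈ G.edgeSet := a1
    have b2 : s(q.2.1, q.2.2) ∈ G.edgeSet := a2
    have b3 : s(q.1, q.2.2) ∈ G.edgeSet := a3
    simp only [b1, b2, b3, if_true]
    have := h3 q.1 q.2.1 q.2.2 a1 a2 a3.symm
    rw [Sym2.eq_swap (a := q.2.2) (b := q.1)] at this
    exact this
  · have h5 := h4 (ed G)
    rw [Fintype.card_fin] at h5
    refine le_trans (le_of_eq ?_) h5
    refine sum_congr rfl fun e he => ?_
    exact if_pos (mem_ed.1 he)

theorem t_RemC (_hRemT : S_RemT) : S_RemC := t_RemC0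

end HR
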