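import Pool.Agent.Lib.MP_a1b8b7_co.HR.Spec

/-!
# MP_a1b8b7_co, part A: the tripartite triangle removal lemma
-/

set_option autoImplicit false

open Finset

namespace HR

/-- The relation on the disjoint union of three copies. -/
def RemT_rel {n : ℕ} (A B C : Fin n → Fin n → Prop) :
    (Fin n ⊕ Fin n ⊕ Fin n) → (Fin n ⊕ Fin n ⊕ Fin n) → Prop
  | .inl x, .inr (.inl y) => A x y
  | .inr (.inl y), .inr (.inr z) => B y z
  | .inr (.inr z), .inl x => C z x
  | _, _ => False

/-- The tripartite graph. -/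
def RemT_G {n : ℕ} (A B C : Fin n → Fin n → Prop) : SimpleGraph (Fin n ⊕ Fin n ⊕ Fin n) :=
  SimpleGraph.fromRel (RemT_rel A B C)

/-- The edges of the three types. -/
def RemT_e {n : ℕ} : (Fin n × Fin n) ⊕ (Fin n × Fin n) ⊕ (Fin n × Fin n) →
    Sym2 (Fin n ⊕ Fin n ⊕ Fin n)
  | .inl p => s(.inl p.1, .inr (.inl p.2))
  | .inr (.inl p) => s(.inr (.inl p.1), .inr (.inr p.2))
  | .inr (.inr p) => s(.inr (.inr p.1), .inl p.2)

theorem RemT_e_inj {n : ℕ} : Function.Injective (RemT_e (n := n)) := by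
  rintro (⟨a, b⟩ | ⟨a, b⟩ | ⟨a, b⟩) (⟨c, d⟩ | ⟨c, d⟩ | ⟨c, d⟩) h <;>
    simp [RemT_e] at h ⊢ <;> exact h

theorem t_RemT : S_RemT := by
  classical
  intro ε hε
  have hε' : 0 < ε / 9 := by positivity
  have hη := SimpleGraph.triangleRemovalBound_pos hε'
  refine ⟨SimpleGraph.triangleRemovalBound (ε / 9), hη, ?_⟩
  intro n A B C t ht hcard
  rcases Nat.eq_zero_or_pos n with rfl | hn
  · refine ⟨∅, ∅, ∅, by simp, fun x => x.elim0⟩
  have hca : (Fintype.card (Fin n ⊕ Fin n ⊕ Fin n) : ℝ) = 3 * n := by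
    simp
    ring
  have hcl : ((RemT_G A B C).cliqueFinset 3).card ≤ t.card := by
    have hsub : (RemT_G A B C).cliqueFinset 3 ⊆ t.image
        (fun q : Fin n × Fin n × Fin n => ({.inl q.1, .inr (.inl q.2.1), .inr (.inr q.2.2)} :
          Finset (Fin n ⊕ Fin n ⊕ Fin n))) := by
      intro s hs
      rw [SimpleGraph.mem_cliqueFinset_iff, SimpleGraph.is3Clique_iff] at hs
      obtain ⟨a, b, c, hab, hac, hbc, rfl⟩ := hs
      rw [Finset.mem_image]
      simp only [RemT_G, SimpleGraph.fromRel_adj] at hab hac hbc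
      rcases a with a | a | a <;> rcases b with b | b | b <;> rcases c with c | c | c <;>
        simp [RemT_rel] at hab hac hbc
      · exact ⟨(a, b, c), ht _ _ _ hab hbc hac, rfl⟩
      · refine ⟨(a, c, b), ht _ _ _ hac hbc hab, ?_⟩
        ext x
        simp
        tauto
      · refine ⟨(b, a, c), ht _ _ _ hab hac hbc, ?_⟩
        ext x
        simp
        tauto
      · refine ⟨(c, a, b), ht _ _ _ hac hab hbc, ?_⟩
        ext x
        simp
        tauto
      · refine ⟨(b, c, a), ht _ _ _ hbc hac hab, ?_⟩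
        ext x
        simp
        tauto
      · refine ⟨(c, b, a), ht _ _ _ hbc hab hac, ?_⟩
        ext x
        simp
        tauto
    exact (Finset.card_le_card hsub).trans Finset.card_image_le
  have hlt : (((RemT_G A B C).cliqueFinset 3).card : ℝ) <
      SimpleGraph.triangleRemovalBound (ε / 9) *
        (Fintype.card (Fin n ⊕ Fin n ⊕ Fin n) : ℝ) ^ 3 := by
    rw [hca]
    have hn' : (0 : ℝ) < n := by exact_mod_cast hn
    calc (((RemT_G A B C).cliqueFinset 3).card : ℝ) ≤ t.card := by exact_mod_cast hcl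
      _ ≤ SimpleGraph.triangleRemovalBound (ε / 9) * (n : ℝ) ^ 3 := hcard
      _ < _ := by
        apply mul_lt_mul_of_pos_left _ hη
        have : (0 : ℝ) < (n : ℝ) ^ 3 := by positivity
        nlinarith
  obtain ⟨G', hG', hdec, hE, hfree⟩ := SimpleGraph.triangle_removal hlt
  let DA : Finset (Fin n × Fin n) := Finset.univ.filter fun p =>
    A p.1 p.2 ∧ ¬ G'.Adj (.inl p.1) (.inr (.inl p.2))
  let DB : Finset (Fin n × Fin n) := Finset.univ.filter fun p =>
    B p.1 p.2 ∧ ¬ G'.Adj (.inr (.inl p.1)) (.inr (.inr p.2))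
  let DC : Finset (Fin n × Fin n) := Finset.univ.filter fun p =>
    C p.1 p.2 ∧ ¬ G'.Adj (.inr (.inr p.1)) (.inl p.2)
  refine ⟨DA, DB, DC, ?_, ?_⟩
  · have h1 : (DA.disjSum (DB.disjSum DC)).card ≤
        ((RemT_G A B C).edgeFinset \ G'.edgeFinset).card := by
      refine Finset.card_le_card_of_injOn RemT_e ?_ (RemT_e_inj.injOn)
      intro p hp
      rw [Finset.mem_coe] at hp
      rw [Finset.mem_coe, Finset.mem_sdiff, SimpleGraph.mem_edgeFinset,
        SimpleGraph.mem_edgeFinset]
      rcases p with ⟨a, b⟩ | ⟨a, b⟩ | ⟨a, b⟩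
      · simp only [Finset.inl_mem_disjSum, DA, Finset.mem_filter, Finset.mem_univ,
          true_and] at hp
        simp only [RemT_e, SimpleGraph.mem_edgeSet]
        refine ⟨?_, hp.2⟩
        simp only [RemT_G, SimpleGraph.fromRel_adj]
        exact ⟨by simp, Or.inl hp.1⟩
      · simp only [Finset.inr_mem_disjSum, Finset.inl_mem_disjSum, DB, Finset.mem_filter,
          Finset.mem_univ, true_and] at hp
        simp only [RemT_e, SimpleGraph.mem_edgeSet]
        refine ⟨?_, hp.2⟩
        simp only [RemT_G, SimpleGraph.fromRel_adj]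
        exact ⟨by simp, Or.inl hp.1⟩
      · simp only [Finset.inr_mem_disjSum, DC, Finset.mem_filter,
          Finset.mem_univ, true_and] at hp
        simp only [RemT_e, SimpleGraph.mem_edgeSet]
        refine ⟨?_, hp.2⟩
        simp only [RemT_G, SimpleGraph.fromRel_adj]
        exact ⟨by simp, Or.inl hp.1⟩
    rw [Finset.card_disjSum, Finset.card_disjSum, Finset.card_sdiff_of_subset
      (SimpleGraph.edgeFinset_mono hG')] at h1
    have h2 : G'.edgeFinset.card ≤ (RemT_G A B C).edgeFinset.card :=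
      Finset.card_le_card (SimpleGraph.edgeFinset_mono hG')
    have h3 : ((DA.card + DB.card + DC.card : ℕ) : ℝ) ≤
        ((RemT_G A B C).edgeFinset.card : ℝ) - (G'.edgeFinset.card : ℝ) := by
      rw [← Nat.cast_sub h2]
      exact_mod_cast (by omega)
    refine h3.trans (hE.le.trans ?_)
    have h4 : ((Fintype.card (Fin n ⊕ Fin n ⊕ Fin n) ^ 2 : ℕ) : ℝ) = 9 * (n : ℝ) ^ 2 := by
      rw [Nat.cast_pow, hca]
      ring
    rw [h4]
    apply le_of_eq
    ring
  · intro x y z hA hB hC
    by_contra hne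
    push Not at hne
    obtain ⟨h1, h2, h3⟩ := hne
    simp only [DA, DB, DC, Finset.mem_filter, Finset.mem_univ, true_and, not_and, not_not]
      at h1 h2 h3
    have hxy := h1 hA
    have hyz := h2 hB
    have hzx := h3 hC
    refine hfree {.inl x, .inr (.inl y), .inr (.inr z)} ?_
    rw [SimpleGraph.is3Clique_iff]
    exact ⟨_, _, _, hxy, hzx.symm, hyz, rfl⟩

end HR
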