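import Pool.Agent.Lib.MP_a1b8b7_co.HR.Spec

/-!
# MP_a1b8b7_co, HR/Rep: removing the overload of a fractional matching
-/

set_option autoImplicit false

open Finset

namespace HR

/-- Weierstrass inequality. -/
theorem Rep_prod {V : Type} (T : Finset V) (a : V → ℝ) (ha : ∀ v, 0 ≤ a v ∧ a v ≤ 1) :
    1 - ∑ v ∈ T, (1 - a v) ≤ ∏ v ∈ T, a v := by
  classical
  induction T using Finset.induction_on with
  | empty => simp
  | insert v T hv ih =>
    rw [sum_insert hv, prod_insert hv]
    have h1 := ha v
    have h2 : ∏ v ∈ T, a v ≤ 1 := prod_le_one (fun i _ => (ha i).1) (fun i _ => (ha i).2)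
    have h3 : 0 ≤ (1 - a v) * (1 - ∏ v ∈ T, a v) := mul_nonneg (by linarith) (by linarith)
    nlinarith

theorem t_Rep : S_Rep := by
  intro V _ U H f hHU hf
  classical
  set d : V → ℝ := fun v => deg H f v with hd
  have hd0 : ∀ v, 0 ≤ d v := fun v => sum_nonneg fun T hT => hf T (mem_filter.1 hT).1
  set a : V → ℝ := fun v => 1 / max 1 (d v) with ha
  have hm : ∀ v, 0 < max 1 (d v) := fun v => lt_of_lt_of_le one_pos (le_max_left _ _)
  have ha0 : ∀ v, 0 ≤ a v ∧ a v ≤ 1 := by
    intro v
    refine ⟨by have := hm v; positivity, ?_⟩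
    rw [ha]
    simp only
    rw [div_le_one (hm v)]
    exact le_max_left _ _
  have hp0 : ∀ T : Finset V, 0 ≤ ∏ v ∈ T, a v := fun T => prod_nonneg fun v _ => (ha0 v).1
  have hp1 : ∀ T : Finset V, ∏ v ∈ T, a v ≤ 1 :=
    fun T => prod_le_one (fun i _ => (ha0 i).1) (fun i _ => (ha0 i).2)
  have hp2 : ∀ (T : Finset V) (v : V), v ∈ T → ∏ v ∈ T, a v ≤ a v := by
    intro T v hv
    rw [← mul_prod_erase T a hv]
    exact mul_le_of_le_one_right (ha0 v).1 (hp1 _)
  refine ⟨fun T => f T * ∏ v ∈ T, a v, ?_, ?_, ?_⟩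
  · intro T hT
    exact ⟨mul_nonneg (hf T hT) (hp0 T), mul_le_of_le_one_right (hf T hT) (hp1 T)⟩
  · intro v _
    have h1 : deg H (fun T => f T * ∏ v ∈ T, a v) v ≤ d v * a v := by
      rw [hd]
      unfold deg
      rw [sum_mul]
      refine sum_le_sum fun T hT => ?_
      obtain ⟨hT1, hT2⟩ := mem_filter.1 hT
      exact mul_le_mul_of_nonneg_left (hp2 T v hT2) (hf T hT1)
    refine h1.trans ?_
    rw [ha]
    simp only
    rw [mul_one_div, div_le_one (hm v)]
    exact le_max_right _ _
  · have h1 : ∑ T ∈ H, f T - ∑ T ∈ H, f T * ∏ v ∈ T, a v ≤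
        ∑ T ∈ H, f T * ∑ v ∈ T, (1 - a v) := by
      rw [← sum_sub_distrib]
      refine sum_le_sum fun T hT => ?_
      have h2 := Rep_prod T a ha0
      have h3 := hf T hT
      nlinarith
    have h2 : ∑ T ∈ H, f T * ∑ v ∈ T, (1 - a v) = ∑ v ∈ U, (1 - a v) * d v := by
      have e1 : ∀ T ∈ H, f T * ∑ v ∈ T, (1 - a v) =
          ∑ v ∈ U, if v ∈ T then f T * (1 - a v) else 0 := by
        intro T hT
        rw [← sum_filter, mul_sum]
        refine sum_congr ?_ fun _ _ => rfl
        ext v
        rw [mem_filter]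
        exact ⟨fun h => ⟨hHU T hT h, h⟩, fun h => h.2⟩
      rw [sum_congr rfl e1, sum_comm]
      refine sum_congr rfl fun v _ => ?_
      rw [← sum_filter, hd]
      unfold deg
      rw [mul_sum]
      exact sum_congr rfl fun T _ => by ring
    have h3 : ∑ v ∈ U, (1 - a v) * d v ≤ ∑ v ∈ U, max (deg H f v - 1) 0 := by
      refine sum_le_sum fun v _ => ?_
      have e2 : deg H f v = d v := rfl
      rw [e2]
      have h0 := hd0 v
      have hav := ha0 v
      rcases le_total (d v) 1 with h | h
      · have e3 : a v = 1 := by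
          rw [ha]
          simp only
          rw [max_eq_left h]
          norm_num
        rw [e3]
        simp
      · have e3 : a v * d v = 1 := by
          rw [ha]
          simp only
          rw [max_eq_right h]
          field_simp
        rw [sub_mul, e3, one_mul]
        exact le_max_left _ _
    linarith

end HR
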