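import Pool.Agent.Lib.MP_a1b8b7_co.HR.Spec

/-!
# HR.StF: survival probabilities
-/

set_option autoImplicit false

open Finset

namespace HR

variable {V : Type} [DecidableEq V]

theorem StF_surv (H S : Finset (Finset V)) (hS : S ⊆ H) (T : Finset V) (hT : T ∈ H) :
    T ∈ surv H S ↔ Disjoint S (nb H T) := by
  unfold surv nb
  rw [Finset.mem_filter, Finset.disjoint_left]
  constructor
  · rintro ⟨_, h⟩ T' hT' hmem
    exact (Finset.mem_filter.1 hmem).2 (h T' hT')
  · intro h
    refine ⟨hT, fun T' hT' => ?_⟩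
    by_contra hcon
    exact h hT' (Finset.mem_filter.2 ⟨hS hT', hcon⟩)

theorem StF_st (H S : Finset (Finset V)) (hS : S ⊆ H) (v : V) :
    (∀ T' ∈ S, v ∉ T') ↔ Disjoint S (st H v) := by
  unfold st
  rw [Finset.disjoint_left]
  constructor
  · intro h T' hT' hmem
    exact h T' hT' (Finset.mem_filter.1 hmem).2
  · intro h T' hT' hv
    exact h hT' (Finset.mem_filter.2 ⟨hS hT', hv⟩)

theorem StF_congr {p : Finset V → ℝ} {H : Finset (Finset V)} {g g' : Finset (Finset V) → ℝ}
    (h : ∀ S, S ⊆ H → g S = g' S) : Ex p H g = Ex p H g' := by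
  unfold Ex
  exact Finset.sum_congr rfl fun S hS => by rw [h S (Finset.mem_powerset.1 hS)]

theorem StF_sum {p : Finset V → ℝ} {H : Finset (Finset V)} (K : Finset (Finset V))
    (g : Finset V → Finset (Finset V) → ℝ) :
    Ex p H (fun S => ∑ T ∈ K, g T S) = ∑ T ∈ K, Ex p H (g T) := by
  unfold Ex
  rw [Finset.sum_comm]
  exact Finset.sum_congr rfl fun S _ => by rw [Finset.mul_sum]

theorem t_StF (hEx : S_Ex) (hStR : S_StR) : S_StF := by
  intro V _ U H f δ θ hS hF hδ hθ0 hθ
  obtain ⟨-, -, hav, -, -, -, -, -, hmul⟩ := hEx (Finset V) (fun T => θ * f T) H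
  obtain ⟨-, hr2, -, -, -, -⟩ := hStR V U H f δ θ hS hF hδ hθ0 hθ
  have h1 : ∀ T ∈ H, Ex (fun T => θ * f T) H (fun S => if T ∈ surv H S then 1 else 0) =
      R θ f (nb H T) := by
    intro T hT
    rw [StF_congr (g' := fun S => if Disjoint S (nb H T) then 1 else 0)]
    · exact hav (nb H T) (Finset.filter_subset _ _)
    · intro S hSH
      simp only [StF_surv H S hSH T hT]
  have hterm : ∀ K : Finset (Finset V), K ⊆ H →
      Ex (fun T => θ * f T) H (fun S => ∑ T ∈ K.filter (fun T => T ∈ surv H S), nw H θ f T) =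
      (1 - θ) * ∑ T ∈ K, f T := by
    intro K hK
    rw [StF_congr (g' := fun S => ∑ T ∈ K, nw H θ f T * (if T ∈ surv H S then 1 else 0))]
    · rw [StF_sum K (fun T S => nw H θ f T * (if T ∈ surv H S then 1 else 0)), Finset.mul_sum]
      refine Finset.sum_congr rfl fun T hT => ?_
      rw [hmul, h1 T (hK hT)]
      have hR : 0 < R θ f (nb H T) := by
        have := (hr2 T (hK hT)).1
        linarith
      unfold nw
      field_simp
    · intro S _
      rw [Finset.sum_filter]
      refine Finset.sum_congr rfl fun T _ => ?_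
      split_ifs <;> simp
  refine ⟨h1, ?_, ?_, ?_, ?_⟩
  · intro T hT T' hT'
    rw [StF_congr (g' := fun S => if Disjoint S (nb H T ∪ nb H T') then 1 else 0)]
    · exact hav (nb H T ∪ nb H T') (Finset.union_subset (Finset.filter_subset _ _)
        (Finset.filter_subset _ _))
    · intro S hSH
      simp only [StF_surv H S hSH T hT, StF_surv H S hSH T' hT', Finset.disjoint_union_right]
  · intro v
    rw [StF_congr (g' := fun S => if Disjoint S (st H v) then 1 else 0)]
    · exact hav (st H v) (Finset.filter_subset _ _)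
    · intro S hSH
      simp only [StF_st H S hSH v]
  · have h := hterm H (Finset.Subset.refl H)
    rw [← h]
    refine StF_congr fun S _ => ?_
    refine Finset.sum_congr ?_ fun _ _ => rfl
    ext T
    rw [Finset.mem_filter]
    exact ⟨fun h => ⟨(Finset.mem_filter.1 h).1, h⟩, fun h => h.2⟩
  · intro v
    have h := hterm (H.filter (fun T => v ∈ T)) (Finset.filter_subset _ _)
    unfold deg
    rw [← h]
    refine StF_congr fun S _ => ?_
    refine Finset.sum_congr ?_ fun _ _ => rfl
    ext T
    rw [Finset.mem_filter, Finset.mem_filter, Finset.mem_filter]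
    constructor
    · rintro ⟨h1, h2⟩
      exact ⟨⟨(Finset.mem_filter.1 h1).1, h2⟩, h1⟩
    · rintro ⟨⟨_, h2⟩, h3⟩
      exact ⟨h3, h2⟩

end HR
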