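import Pool.Agent.Lib.MP_a1b8b7_co.HR.Spec

/-!
# MP_a1b8b7_co, part A: expected number of isolated chosen triples
-/

set_option autoImplicit false

open Finset

namespace HR

theorem StM_sum {ι κ : Type} [DecidableEq ι] (p : ι → ℝ) (H : Finset ι) (s : Finset κ)
    (g : κ → Finset ι → ℝ) :
    Ex p H (fun S => ∑ i ∈ s, g i S) = ∑ i ∈ s, Ex p H (g i) := by
  unfold Ex
  rw [Finset.sum_comm]
  refine Finset.sum_congr rfl fun S _ => ?_
  rw [Finset.mul_sum]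

theorem StM_point {V : Type} [DecidableEq V] (H S : Finset (Finset V)) (hS : S ⊆ H) :
    ∑ T ∈ H, (if T ∈ S then (1 : ℝ) else 0) +
      (-1) * ∑ T ∈ H, ∑ T' ∈ (nb H T).erase T, (if T ∈ S ∧ T' ∈ S then (1 : ℝ) else 0) ≤
      ((isol S).card : ℝ) := by
  have h1 : ∑ T ∈ H, (if T ∈ S then (1 : ℝ) else 0) = ∑ T ∈ S, (1 : ℝ) := by
    rw [← Finset.sum_filter]
    refine Finset.sum_congr ?_ fun _ _ => rfl
    ext T
    rw [Finset.mem_filter]
    exact ⟨fun h => h.2, fun h => ⟨hS h, h⟩⟩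
  have h2 : ∑ T ∈ H, ∑ T' ∈ (nb H T).erase T, (if T ∈ S ∧ T' ∈ S then (1 : ℝ) else 0) =
      ∑ T ∈ S, ∑ T' ∈ (nb H T).erase T, (if T' ∈ S then (1 : ℝ) else 0) := by
    symm
    apply Finset.sum_subset_zero_on_sdiff hS
    · intro T hT
      rw [Finset.mem_sdiff] at hT
      exact Finset.sum_eq_zero fun T' _ => if_neg fun h => hT.2 h.1
    · intro T hT
      refine Finset.sum_congr rfl fun T' _ => ?_
      by_cases h : T' ∈ S
      · rw [if_pos h, if_pos ⟨hT, h⟩]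
      · rw [if_neg h, if_neg fun h' => h h'.2]
  have h3 : ((isol S).card : ℝ) = ∑ T ∈ S,
      (if ∀ T' ∈ S, T' ≠ T → Disjoint T T' then (1 : ℝ) else 0) := by
    rw [isol, Finset.card_filter]
    push_cast
    rfl
  rw [h1, h2, h3, neg_one_mul, ← sub_eq_add_neg, ← Finset.sum_sub_distrib]
  refine Finset.sum_le_sum fun T hT => ?_
  have h4 : ∀ T' ∈ (nb H T).erase T, (0 : ℝ) ≤ if T' ∈ S then (1 : ℝ) else 0 := by
    intro T' _
    split_ifs
    · exact zero_le_one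
    · exact le_rfl
  by_cases h : ∀ T' ∈ S, T' ≠ T → Disjoint T T'
  · rw [if_pos h]
    have h5 := Finset.sum_nonneg h4
    linarith
  · rw [if_neg h]
    push Not at h
    obtain ⟨T', hT', hne, hd⟩ := h
    have hm : T' ∈ (nb H T).erase T := by
      rw [Finset.mem_erase, nb, Finset.mem_filter]
      exact ⟨hne, hS hT', hd⟩
    have h5 := Finset.single_le_sum h4 hm
    rw [if_pos hT'] at h5
    linarith

theorem t_StM (hEx : S_Ex) (hStR : S_StR) : S_StM := by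
  intro V _ U H f δ θ hSys hFr hδ hθ0 hθ
  obtain ⟨_, _, _, e4, e5, e6, _, e8, e9⟩ := hEx (Finset V) (fun T => θ * f T) H
  obtain ⟨r1, _, _, _, r5, r6⟩ := hStR V U H f δ θ hSys hFr hδ hθ0 hθ
  have hp : ∀ T ∈ H, 0 ≤ θ * f T ∧ θ * f T ≤ 1 := fun T hT =>
    ⟨(r1 T hT).1, (r1 T hT).2.trans (by norm_num)⟩
  refine le_trans ?_ (e6 hp _ _ fun S hS => StM_point H S hS)
  rw [e8, StM_sum, e9, StM_sum]
  have h1 : ∑ T ∈ H, Ex (fun T => θ * f T) H (fun S => if T ∈ S then (1 : ℝ) else 0) =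
      θ * ∑ T ∈ H, f T := by
    rw [Finset.mul_sum]
    exact Finset.sum_congr rfl fun T hT => e4 T hT
  have h2 : ∑ T ∈ H, Ex (fun T => θ * f T) H
      (fun S => ∑ T' ∈ (nb H T).erase T, if T ∈ S ∧ T' ∈ S then (1 : ℝ) else 0) ≤
      ∑ T ∈ H, (θ * f T) * (3 * θ) := by
    refine Finset.sum_le_sum fun T hT => ?_
    rw [StM_sum]
    have h3 : ∑ T' ∈ (nb H T).erase T, Ex (fun T => θ * f T) H
        (fun S => if T ∈ S ∧ T' ∈ S then (1 : ℝ) else 0) =
        ∑ T' ∈ (nb H T).erase T, (θ * f T) * (θ * f T') := by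
      refine Finset.sum_congr rfl fun T' hT' => ?_
      rw [Finset.mem_erase, nb, Finset.mem_filter] at hT'
      exact e5 T hT T' hT'.2.1 (Ne.symm hT'.1)
    rw [h3, ← Finset.mul_sum]
    refine mul_le_mul_of_nonneg_left ?_ (hp T hT).1
    refine le_trans ?_ (r6 T hT)
    refine Finset.sum_le_sum_of_subset_of_nonneg (Finset.erase_subset _ _) fun T' hT' _ => ?_
    rw [nb, Finset.mem_filter] at hT'
    exact (hp T' hT'.1).1
  have h4 : ∑ T ∈ H, (θ * f T) * (3 * θ) = θ ^ 2 * (3 * ∑ T ∈ H, f T) := by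
    rw [Finset.mul_sum, Finset.mul_sum]
    refine Finset.sum_congr rfl fun T _ => ?_
    ring
  have h5 : θ ^ 2 * (3 * ∑ T ∈ H, f T) ≤ θ ^ 2 * U.card :=
    mul_le_mul_of_nonneg_left r5 (sq_nonneg θ)
  rw [h1]
  linarith

end HR
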