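import Pool.Agent.Lib.MP_a1b8b7_co.HR.Spec

/-!
# MP_a1b8b7_co, part A: elementary bounds
-/

set_option autoImplicit false

open Finset

namespace HR

private theorem StR_prod {ι : Type} [DecidableEq ι] (K : Finset ι) (x : ι → ℝ)
    (hx : ∀ i ∈ K, 0 ≤ x i ∧ x i ≤ 1) :
    1 - ∑ i ∈ K, x i ≤ ∏ i ∈ K, (1 - x i) ∧ ∏ i ∈ K, (1 - x i) ≤ 1 ∧
      0 ≤ ∏ i ∈ K, (1 - x i) := by
  induction K using Finset.induction_on with
  | empty => simp
  | insert a K ha ih =>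
    have hK : ∀ i ∈ K, 0 ≤ x i ∧ x i ≤ 1 := fun i hi => hx i (Finset.mem_insert_of_mem hi)
    obtain ⟨h1, h2, h3⟩ := ih hK
    obtain ⟨ha0, ha1⟩ := hx a (Finset.mem_insert_self a K)
    rw [Finset.sum_insert ha, Finset.prod_insert ha]
    have hs : 0 ≤ ∑ i ∈ K, x i := Finset.sum_nonneg fun i hi => (hK i hi).1
    refine ⟨?_, ?_, ?_⟩
    · have h4 : (1 - x a) * (1 - ∑ i ∈ K, x i) ≤ (1 - x a) * ∏ i ∈ K, (1 - x i) :=
        mul_le_mul_of_nonneg_left h1 (by linarith)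
      have h5 : 0 ≤ x a * ∑ i ∈ K, x i := mul_nonneg ha0 hs
      linarith
    · have h4 : (1 - x a) * ∏ i ∈ K, (1 - x i) ≤ 1 * 1 :=
        mul_le_mul (by linarith) h2 h3 (by norm_num)
      linarith
    · exact mul_nonneg (by linarith) h3

private theorem StR_dbl {V : Type} [DecidableEq V] (H : Finset (Finset V)) (W : Finset V)
    (g : Finset V → ℝ) :
    ∑ v ∈ W, deg H g v = ∑ T ∈ H, ∑ v ∈ W, (if v ∈ T then g T else 0) := by
  rw [Finset.sum_comm]
  refine Finset.sum_congr rfl fun v _ => ?_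
  unfold deg
  rw [Finset.sum_filter]

private theorem StR_nb {V : Type} [DecidableEq V] (H : Finset (Finset V)) (T : Finset V)
    (g : Finset V → ℝ) (hg : ∀ A ∈ H, 0 ≤ g A) :
    ∑ A ∈ nb H T, g A ≤ ∑ v ∈ T, deg H g v := by
  rw [StR_dbl]
  unfold nb
  rw [Finset.sum_filter]
  refine Finset.sum_le_sum fun A hA => ?_
  have hnn : ∀ v ∈ T, 0 ≤ (if v ∈ A then g A else 0) := by
    intro v _
    split_ifs
    · exact hg A hA
    · exact le_refl _
  by_cases h : Disjoint T A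
  · rw [if_neg (not_not.2 h)]
    exact Finset.sum_nonneg hnn
  · rw [if_pos h]
    obtain ⟨v, hv1, hv2⟩ := Finset.not_disjoint_iff.1 h
    have h1 := Finset.single_le_sum hnn hv1
    rwa [if_pos hv2] at h1

theorem t_StR : S_StR := by
  intro V _ U H f δ θ hS hF hδ hθ hθ6
  have hnbH : ∀ T, nb H T ⊆ H := fun T => Finset.filter_subset _ _
  have hstH : ∀ v, st H v ⊆ H := fun v => Finset.filter_subset _ _
  have c1 : ∀ T ∈ H, 0 ≤ θ * f T ∧ θ * f T ≤ 1 / 6 := by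
    intro T hT
    have h1 := hF.nn T hT
    have h2 : f T ≤ 1 := (hF.le T hT).trans hδ
    refine ⟨mul_nonneg hθ h1, ?_⟩
    calc θ * f T ≤ 1 / 6 * 1 := mul_le_mul hθ6 h2 h1 (by norm_num)
      _ = 1 / 6 := by norm_num
  have c1' : ∀ K, K ⊆ H → ∀ T ∈ K, 0 ≤ θ * f T ∧ θ * f T ≤ 1 := by
    intro K hK T hT
    have := c1 T (hK hT)
    exact ⟨this.1, by linarith⟩
  have c6 : ∀ T ∈ H, ∑ T' ∈ nb H T, θ * f T' ≤ 3 * θ := by
    intro T hT
    have h1 := StR_nb H T f hF.nn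
    have h2 : ∑ v ∈ T, deg H f v ≤ ∑ _v ∈ T, (1 : ℝ) :=
      Finset.sum_le_sum fun v hv => hF.dg v (hS.sub T hT hv)
    rw [Finset.sum_const, hS.three T hT, nsmul_eq_mul] at h2
    rw [← Finset.mul_sum]
    have h3 : θ * ∑ T' ∈ nb H T, f T' ≤ θ * 3 :=
      mul_le_mul_of_nonneg_left (by push_cast at h2; linarith) hθ
    linarith
  have c2 : ∀ T ∈ H, 1 - 3 * θ ≤ R θ f (nb H T) ∧ R θ f (nb H T) ≤ 1 := by
    intro T hT
    obtain ⟨h1, h2, -⟩ := StR_prod (nb H T) (fun T => θ * f T) (c1' _ (hnbH T))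
    have h3 := c6 T hT
    exact ⟨by unfold R; linarith, h2⟩
  refine ⟨c1, c2, ?_, ?_, ?_, c6⟩
  · intro v hv
    obtain ⟨h1, h2, -⟩ := StR_prod (st H v) (fun T => θ * f T) (c1' _ (hstH v))
    have h3 : ∑ T ∈ st H v, θ * f T ≤ θ * 1 := by
      rw [← Finset.mul_sum]
      exact mul_le_mul_of_nonneg_left (hF.dg v hv) hθ
    exact ⟨by unfold R; linarith, h2⟩
  · intro T hT
    obtain ⟨h1, h2⟩ := c2 T hT
    have h3 : 0 < 1 - 3 * θ := by linarith
    have h4 : 0 < R θ f (nb H T) := by linarith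
    have h5 := hF.nn T hT
    unfold nw
    refine ⟨mul_nonneg h5 (div_nonneg (by linarith) h4.le), ?_⟩
    rw [div_eq_mul_one_div (f T)]
    refine mul_le_mul_of_nonneg_left ?_ h5
    rw [div_le_div_iff₀ h4 h3]
    nlinarith
  · have h1 := StR_dbl H U f
    have h2 : ∀ T ∈ H, ∑ v ∈ U, (if v ∈ T then f T else 0) = 3 * f T := by
      intro T hT
      rw [← Finset.sum_filter, Finset.filter_mem_eq_inter,
        Finset.inter_eq_right.2 (hS.sub T hT), Finset.sum_const, hS.three T hT, nsmul_eq_mul]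
      norm_num
    rw [Finset.sum_congr rfl h2, ← Finset.mul_sum] at h1
    rw [← h1]
    calc ∑ v ∈ U, deg H f v ≤ ∑ _v ∈ U, (1 : ℝ) := Finset.sum_le_sum fun v hv => hF.dg v hv
      _ = U.card := by rw [Finset.sum_const, nsmul_eq_mul, mul_one]

end HR
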