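import Pool.Agent.Lib.MP_a1b8b7_co.HR.Spec

/-!
# HR.StS: one round
-/

set_option autoImplicit false

open Finset

namespace HR

theorem t_StS (hEx : S_Ex) (hStR : S_StR) (hStM : S_StM) (hStF : S_StF) (hStV : S_StV) : S_StS := by
  intro V _ U H f δ θ hS hF hδ0 hδ hθ0 hθ c hc0 hc1
  obtain ⟨-, hone, -, -, -, hmono, hexi, hadd, hmul⟩ := hEx (Finset V) (fun T => θ * f T) H
  obtain ⟨hr1, -, -, -, hr5, -⟩ := hStR V U H f δ θ hS hF (by linarith) hθ0 hθ
  have hM := hStM V U H f δ θ hS hF (by linarith) hθ0 hθ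
  obtain ⟨-, -, -, hF4, -⟩ := hStF V U H f δ θ hS hF (by linarith) hθ0 hθ
  have hV := hStV V U H f δ θ hS hF hδ0 hδ hθ0 hθ
  have hp : ∀ i ∈ H, 0 ≤ θ * f i ∧ θ * f i ≤ 1 := fun i hi =>
    ⟨(hr1 i hi).1, by linarith [(hr1 i hi).2]⟩
  -- expectation of the sum of the overloads
  have hsum : ∀ W : Finset V, W ⊆ U → Ex (fun T => θ * f T) H
      (fun S => ∑ v ∈ W, max (deg (surv H S) (nw H θ f) v - 1) 0) ≤ W.card * (2 * Real.sqrt δ) := by
    intro W
    induction W using Finset.induction_on with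
    | empty =>
      intro _
      have := hmul (fun _ => 1) 0
      simp only [zero_mul] at this
      simp only [Finset.sum_empty, Finset.card_empty, Nat.cast_zero, zero_mul]
      rw [this]
    | insert v W hv ih =>
      intro hW
      have h1 := ih (fun x hx => hW (Finset.mem_insert_of_mem hx))
      have h2 := hV v (hW (Finset.mem_insert_self v W))
      have h3 := hadd (fun S => max (deg (surv H S) (nw H θ f) v - 1) 0)
        (fun S => ∑ v ∈ W, max (deg (surv H S) (nw H θ f) v - 1) 0)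
      simp only [Finset.sum_insert hv]
      rw [h3, Finset.card_insert_of_notMem hv]
      push_cast
      linarith
  have hU := hsum U (Finset.Subset.refl U)
  have hsq : 0 ≤ Real.sqrt δ := Real.sqrt_nonneg δ
  have hcard : (0 : ℝ) ≤ U.card := Nat.cast_nonneg _
  obtain ⟨S, hSH, hSc⟩ := hexi hp
    (fun S => ((isol S).card : ℝ) + (c * ∑ T ∈ surv H S, nw H θ f T +
      (-c) * ∑ v ∈ U, max (deg (surv H S) (nw H θ f) v - 1) 0))
    ((θ + c * (1 - θ)) * ∑ T ∈ H, f T - (θ ^ 2 + 2 * Real.sqrt δ) * U.card) (by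
      rw [hadd, hadd, hmul, hmul, hF4]
      have h1 : c * Ex (fun T => θ * f T) H
          (fun S => ∑ v ∈ U, max (deg (surv H S) (nw H θ f) v - 1) 0) ≤
          U.card * (2 * Real.sqrt δ) := by
        have h2 : c * Ex (fun T => θ * f T) H
          (fun S => ∑ v ∈ U, max (deg (surv H S) (nw H θ f) v - 1) 0) ≤
            c * (U.card * (2 * Real.sqrt δ)) := mul_le_mul_of_nonneg_left hU hc0
        have h3 : c * (U.card * (2 * Real.sqrt δ)) ≤ 1 * (U.card * (2 * Real.sqrt δ)) :=
          mul_le_mul_of_nonneg_right hc1 (by positivity)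
        linarith
      nlinarith [hM, h1])
  refine ⟨S, hSH, ?_⟩
  have : c * (∑ T ∈ surv H S, nw H θ f T -
        ∑ v ∈ U, max (deg (surv H S) (nw H θ f) v - 1) 0) =
      c * ∑ T ∈ surv H S, nw H θ f T +
      (-c) * ∑ v ∈ U, max (deg (surv H S) (nw H θ f) v - 1) 0 := by ring
  rw [this]
  exact hSc

end HR
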