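import Pool.Agent.Lib.MP_a1b8b7_co.HR.Spec

/-!
# MP_a1b8b7_co, part A: expected overload
-/

set_option autoImplicit false

open Finset

namespace HR

private theorem StV_cov {V : Type} [DecidableEq V] {H S : Finset (Finset V)}
    {v : V} (h : ¬ ∀ T' ∈ S, v ∉ T') (g : Finset V → ℝ) : deg (surv H S) g v = 0 := by
  push Not at h
  obtain ⟨A, hA, hvA⟩ := h
  unfold deg
  have h1 : (surv H S).filter (fun T => v ∈ T) = ∅ := by
    rw [Finset.filter_eq_empty_iff]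
    intro T hT hvT
    simp only [surv, Finset.mem_filter] at hT
    exact Finset.disjoint_left.1 (hT.2 A hA) hvT hvA
  rw [h1, Finset.sum_empty]

private theorem StV_amgm {s y : ℝ} (hs : 0 < s) : y ≤ s + y ^ 2 / (4 * s) := by
  have h1 : s + y ^ 2 / (4 * s) - y = (2 * s - y) ^ 2 / (4 * s) := by
    field_simp
    ring
  have h2 : 0 ≤ (2 * s - y) ^ 2 / (4 * s) := by positivity
  linarith

theorem t_StV (hEx : S_Ex) (hStR : S_StR) (hStF : S_StF) (hStV2 : S_StV2) : S_StV := by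
  intro V _ U H f δ θ hS hF hδ hδ2 hθ hθ6 v hv
  obtain ⟨-, h1, -, -, -, hmono, -, hadd, hmul⟩ := hEx (Finset V) (fun T => θ * f T) H
  obtain ⟨r1, r2, r3, -, -, -⟩ := hStR V U H f δ θ hS hF (by linarith) hθ hθ6
  obtain ⟨-, -, f3, -, f5⟩ := hStF V U H f δ θ hS hF (by linarith) hθ hθ6
  have v2 := hStV2 V U H f δ θ hS hF hδ hδ2 hθ hθ6 v hv
  obtain ⟨s, hs⟩ : ∃ s, s = Real.sqrt δ := ⟨_, rfl⟩
  have hs0 : 0 < s := by rw [hs]; exact Real.sqrt_pos.2 hδ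
  have hs2 : s ^ 2 = δ := by rw [hs]; exact Real.sq_sqrt hδ.le
  obtain ⟨κ, hκ⟩ : ∃ κ, κ = 1 - θ := ⟨_, rfl⟩
  obtain ⟨π, hπ⟩ : ∃ π, π = R θ f (st H v) := ⟨_, rfl⟩
  obtain ⟨d, hd⟩ : ∃ d, d = deg H f v := ⟨_, rfl⟩
  have hd1 : d ≤ 1 := by rw [hd]; exact hF.dg v hv
  have hd0 : 0 ≤ d := by
    rw [hd]
    exact Finset.sum_nonneg fun T hT => hF.nn T (Finset.mem_filter.1 hT).1
  have hκπ : κ ≤ π := by rw [hκ, hπ]; exact (r3 v hv).1
  have hκ0 : 0 < κ := by rw [hκ]; linarith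
  have hκ1 : κ ≤ 1 := by rw [hκ]; linarith
  have hπ0 : 0 < π := by linarith
  obtain ⟨m, hm⟩ : ∃ m, m = κ * d / π := ⟨_, rfl⟩
  have hm1 : m ≤ 1 := by
    rw [hm, div_le_one hπ0]
    nlinarith
  have e5 := f5 v
  have e3 := f3 v
  rw [← hκ, ← hd] at e5
  rw [← hκ, ← hd, ← hπ] at v2
  rw [← hπ] at e3
  obtain ⟨D, hD⟩ : ∃ D : Finset (Finset V) → ℝ, D = fun S => deg (surv H S) (nw H θ f) v :=
    ⟨_, rfl⟩
  obtain ⟨I, hI⟩ : ∃ I : Finset (Finset V) → ℝ,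
    I = fun S => if (∀ T' ∈ S, v ∉ T') then 1 else 0 := ⟨_, rfl⟩
  have hpt : ∀ S, S ⊆ H → max (deg (surv H S) (nw H θ f) v - 1) 0 ≤
      s * 1 + (1 / (4 * s) * (D S) ^ 2 + (-(2 * m / (4 * s)) * D S + m ^ 2 / (4 * s) * I S)) := by
    intro S _
    have hDS : deg (surv H S) (nw H θ f) v = D S := by rw [hD]
    by_cases hc : ∀ T' ∈ S, v ∉ T'
    · have hIS : I S = 1 := by rw [hI]; exact if_pos hc
      rw [hDS, hIS]
      have h2 := StV_amgm (y := D S - m) hs0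
      have h3 : s * 1 + (1 / (4 * s) * (D S) ^ 2 + (-(2 * m / (4 * s)) * D S +
          m ^ 2 / (4 * s) * 1)) = s + (D S - m) ^ 2 / (4 * s) := by ring
      rw [h3]
      refine max_le (by linarith) (by positivity)
    · have hIS : I S = 0 := by rw [hI]; exact if_neg hc
      have hD0 : D S = 0 := by rw [← hDS]; exact StV_cov hc _
      rw [hDS, hIS, hD0]
      have h4 : max ((0 : ℝ) - 1) 0 = 0 := by norm_num
      rw [h4]
      have h5 : s * 1 + (1 / (4 * s) * (0 : ℝ) ^ 2 + (-(2 * m / (4 * s)) * 0 +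
          m ^ 2 / (4 * s) * 0)) = s := by ring
      rw [h5]
      exact hs0.le
  refine (hmono (fun T hT => ⟨(r1 T hT).1, by linarith [(r1 T hT).2]⟩) _ _ hpt).trans ?_
  have E1 : Ex (fun T => θ * f T) H (fun _ => s * 1) = s := by
    rw [hmul (fun _ => 1) s, h1, mul_one]
  have E2 : Ex (fun T => θ * f T) H (fun S => 1 / (4 * s) * (D S) ^ 2) =
      1 / (4 * s) * Ex (fun T => θ * f T) H (fun S => (D S) ^ 2) := hmul (fun S => (D S) ^ 2) _
  have E3 : Ex (fun T => θ * f T) H (fun S => -(2 * m / (4 * s)) * D S) =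
      -(2 * m / (4 * s)) * Ex (fun T => θ * f T) H D := hmul D _
  have E4 : Ex (fun T => θ * f T) H (fun S => m ^ 2 / (4 * s) * I S) =
      m ^ 2 / (4 * s) * Ex (fun T => θ * f T) H I := hmul I _
  have E5 : Ex (fun T => θ * f T) H (fun S => s * 1 + (1 / (4 * s) * (D S) ^ 2 +
      (-(2 * m / (4 * s)) * D S + m ^ 2 / (4 * s) * I S))) =
      s + (1 / (4 * s) * Ex (fun T => θ * f T) H (fun S => (D S) ^ 2) +
        (-(2 * m / (4 * s)) * Ex (fun T => θ * f T) H D +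
          m ^ 2 / (4 * s) * Ex (fun T => θ * f T) H I)) := by
    rw [hadd (fun _ => s * 1) (fun S => 1 / (4 * s) * (D S) ^ 2 +
      (-(2 * m / (4 * s)) * D S + m ^ 2 / (4 * s) * I S)), E1,
      hadd (fun S => 1 / (4 * s) * (D S) ^ 2) (fun S => -(2 * m / (4 * s)) * D S +
        m ^ 2 / (4 * s) * I S), E2, hadd (fun S => -(2 * m / (4 * s)) * D S)
        (fun S => m ^ 2 / (4 * s) * I S), E3, E4]
  rw [E5]
  have hED : Ex (fun T => θ * f T) H D = κ * d := by rw [hD]; exact e5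
  have hEI : Ex (fun T => θ * f T) H I = π := by rw [hI]; exact e3
  have hED2 : Ex (fun T => θ * f T) H (fun S => (D S) ^ 2) ≤
      2 * δ + κ ^ 2 * d ^ 2 * (1 + 8 * (θ * δ)) / π := by rw [hD]; exact v2
  rw [hED, hEI]
  have hs4 : 0 < 4 * s := by linarith
  have key : Ex (fun T => θ * f T) H (fun S => (D S) ^ 2) - 2 * m * (κ * d) + m ^ 2 * π ≤
      4 * δ := by
    have k1 : m * (κ * d) = κ ^ 2 * d ^ 2 / π := by rw [hm]; ring
    have k2 : m ^ 2 * π = κ ^ 2 * d ^ 2 / π := by rw [hm]; field_simp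
    have k3 : κ ^ 2 * d ^ 2 * (1 + 8 * (θ * δ)) / π =
        κ ^ 2 * d ^ 2 / π + 8 * (θ * δ) * (κ ^ 2 * d ^ 2 / π) := by ring
    have k4 : κ ^ 2 * d ^ 2 / π ≤ 1 := by
      rw [div_le_one hπ0]
      have k5 : d ^ 2 ≤ 1 := by nlinarith
      have k6 : κ ^ 2 ≤ π := by nlinarith
      calc κ ^ 2 * d ^ 2 ≤ κ ^ 2 * 1 := mul_le_mul_of_nonneg_left k5 (by positivity)
        _ ≤ π := by linarith
    have k7 : 8 * (θ * δ) * (κ ^ 2 * d ^ 2 / π) ≤ 2 * δ := by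
      have k8 : θ * δ ≤ 1 / 6 * δ := mul_le_mul_of_nonneg_right hθ6 hδ.le
      have k9 : 0 ≤ 8 * (θ * δ) := by positivity
      calc 8 * (θ * δ) * (κ ^ 2 * d ^ 2 / π) ≤ 8 * (θ * δ) * 1 :=
            mul_le_mul_of_nonneg_left k4 k9
        _ ≤ 2 * δ := by linarith
    rw [k3] at hED2
    have k10 : 2 * m * (κ * d) = 2 * (κ ^ 2 * d ^ 2 / π) := by rw [← k1]; ring
    rw [k10, k2]
    linarith
  have fin : s + (1 / (4 * s) * Ex (fun T => θ * f T) H (fun S => (D S) ^ 2) +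
      (-(2 * m / (4 * s)) * (κ * d) + m ^ 2 / (4 * s) * π)) =
      s + (Ex (fun T => θ * f T) H (fun S => (D S) ^ 2) - 2 * m * (κ * d) + m ^ 2 * π) /
        (4 * s) := by ring
  rw [fin]
  have h6 : (Ex (fun T => θ * f T) H (fun S => (D S) ^ 2) - 2 * m * (κ * d) + m ^ 2 * π) /
      (4 * s) ≤ s := by
    rw [div_le_iff₀ hs4]
    nlinarith
  rw [← hs]
  linarith

end HR
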