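import Pool.Agent.Lib.MP_a1b8b7_co.HR.Spec

/-!
# MP_a1b8b7_co, part A: second moment of the new degree
-/

set_option autoImplicit false

open Finset

namespace HR

private theorem StV2_lin {ι κ : Type} [DecidableEq ι] (p : ι → ℝ) (H : Finset ι)
    (s : Finset κ) (c : κ → κ → ℝ) (g : κ → κ → Finset ι → ℝ) :
    Ex p H (fun S => ∑ x ∈ s, ∑ y ∈ s, c x y * g x y S) =
      ∑ x ∈ s, ∑ y ∈ s, c x y * Ex p H (g x y) := by
  unfold Ex
  simp_rw [Finset.mul_sum]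
  rw [Finset.sum_comm]
  refine Finset.sum_congr rfl fun x _ => ?_
  rw [Finset.sum_comm]
  refine Finset.sum_congr rfl fun y _ => Finset.sum_congr rfl fun S _ => ?_
  ring

private theorem StV2_deg {V : Type} [DecidableEq V] (H S : Finset (Finset V))
    (g : Finset V → ℝ) (v : V) :
    (deg (surv H S) g v) ^ 2 = ∑ T ∈ st H v, ∑ T' ∈ st H v,
      (g T * g T') * (if T ∈ surv H S ∧ T' ∈ surv H S then 1 else 0) := by
  have h1 : deg (surv H S) g v = ∑ T ∈ st H v, (if T ∈ surv H S then g T else 0) := by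
    unfold deg
    rw [← Finset.sum_filter]
    refine Finset.sum_congr ?_ fun _ _ => rfl
    ext T
    simp only [surv, st, Finset.mem_filter]
    tauto
  rw [h1, sq, Finset.sum_mul_sum]
  refine Finset.sum_congr rfl fun T _ => Finset.sum_congr rfl fun T' _ => ?_
  by_cases h2 : T ∈ surv H S <;> by_cases h3 : T' ∈ surv H S <;> simp [h2, h3]

theorem t_StV2 (_hEx : S_Ex) (hStR : S_StR) (hStF : S_StF) (hLin : S_Lin) : S_StV2 := by
  intro V _ U H f δ θ hS hF hδ hδ2 hθ hθ6 v hv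
  obtain ⟨h1, h2, h3, -, -, -⟩ := hStR V U H f δ θ hS hF (by linarith) hθ hθ6
  obtain ⟨-, hF2, -, -, -⟩ := hStF V U H f δ θ hS hF (by linarith) hθ hθ6
  have hlin := hLin V U H f δ θ hS hF hδ hδ2 hθ hθ6 v hv
  have hmem : ∀ T ∈ st H v, T ∈ H := fun T hT => (Finset.mem_filter.1 hT).1
  simp_rw [StV2_deg]
  rw [StV2_lin]
  obtain ⟨κ, hκ⟩ : ∃ κ, κ = 1 - θ := ⟨_, rfl⟩
  obtain ⟨π, hπ⟩ : ∃ π, π = R θ f (st H v) := ⟨_, rfl⟩
  have hπ0 : 0 < π := by rw [hπ]; linarith [(h3 v hv).1]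
  have hκ0 : 0 < κ := by rw [hκ]; linarith
  have hκ1 : κ ≤ 1 := by rw [hκ]; linarith
  have hx0 : 0 ≤ θ * δ := by positivity
  have hd1 : ∑ T ∈ st H v, f T ≤ 1 := hF.dg v hv
  rw [← hκ, ← hπ]
  have hterm : ∀ T ∈ st H v, ∀ T' ∈ st H v,
      (nw H θ f T * nw H θ f T') * Ex (fun T => θ * f T) H
        (fun S => if T ∈ surv H S ∧ T' ∈ surv H S then 1 else 0) ≤
      (if T = T' then 2 * δ * f T else 0) + κ ^ 2 * (1 + 8 * (θ * δ)) / π * (f T * f T') := by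
    intro T hT T' hT'
    have mT := hmem T hT
    have mT' := hmem T' hT'
    rw [hF2 T mT T' mT']
    have f0 := hF.nn T mT
    have f0' := hF.nn T' mT'
    obtain ⟨ρ, hρ⟩ : ∃ ρ, ρ = R θ f (nb H T) := ⟨_, rfl⟩
    obtain ⟨ρ', hρ'⟩ : ∃ ρ', ρ' = R θ f (nb H T') := ⟨_, rfl⟩
    have r1 : 1 / 2 ≤ ρ := by rw [hρ]; linarith [(h2 T mT).1]
    have r1' : 1 / 2 ≤ ρ' := by rw [hρ']; linarith [(h2 T' mT').1]
    have e1 : nw H θ f T = f T * (κ / ρ) := by unfold nw; rw [hκ, hρ]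
    have e2 : nw H θ f T' = f T' * (κ / ρ') := by unfold nw; rw [hκ, hρ']
    by_cases hTT : T = T'
    · subst hTT
      rw [if_pos rfl, Finset.union_self, e1, ← hρ]
      have e3 : f T * (κ / ρ) * (f T * (κ / ρ)) * ρ = f T * f T * (κ ^ 2 / ρ) := by
        field_simp
      rw [e3]
      have e4 : κ ^ 2 / ρ ≤ 2 := by
        rw [div_le_iff₀ (by linarith)]
        nlinarith
      have e5 : f T * f T * (κ ^ 2 / ρ) ≤ f T * f T * 2 :=
        mul_le_mul_of_nonneg_left e4 (mul_nonneg f0 f0)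
      have e6 : f T * f T ≤ f T * δ := mul_le_mul_of_nonneg_left (hF.le T mT) f0
      have e7 : 0 ≤ κ ^ 2 * (1 + 8 * (θ * δ)) / π * (f T * f T) := by positivity
      linarith
    · rw [if_neg hTT, zero_add, e1, e2]
      have e3 := hlin T hT T' hT' hTT
      rw [← hπ, ← hρ, ← hρ'] at e3
      have e4 : R θ f (nb H T ∪ nb H T') / (ρ * ρ') ≤ (1 + 8 * (θ * δ)) / π := by
        rw [div_le_div_iff₀ (by positivity) hπ0]
        exact e3
      calc f T * (κ / ρ) * (f T' * (κ / ρ')) * R θ f (nb H T ∪ nb H T')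
          = κ ^ 2 * (f T * f T') * (R θ f (nb H T ∪ nb H T') / (ρ * ρ')) := by
            field_simp
        _ ≤ κ ^ 2 * (f T * f T') * ((1 + 8 * (θ * δ)) / π) :=
            mul_le_mul_of_nonneg_left e4 (by positivity)
        _ = _ := by ring
  refine (Finset.sum_le_sum fun T hT => Finset.sum_le_sum fun T' hT' => hterm T hT T' hT').trans ?_
  simp_rw [Finset.sum_add_distrib, ← Finset.mul_sum, ← Finset.sum_mul]
  have e8 : ∑ T ∈ st H v, ∑ T' ∈ st H v, (if T = T' then 2 * δ * f T else 0) =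
      2 * δ * ∑ T ∈ st H v, f T := by
    rw [Finset.mul_sum]
    refine Finset.sum_congr rfl fun T hT => ?_
    rw [Finset.sum_ite_eq, if_pos hT]
  rw [e8]
  have e9 : deg H f v = ∑ T ∈ st H v, f T := rfl
  rw [e9]
  have e10 : 2 * δ * ∑ T ∈ st H v, f T ≤ 2 * δ * 1 :=
    mul_le_mul_of_nonneg_left hd1 (by linarith)
  have e11 : κ ^ 2 * (1 + 8 * (θ * δ)) / π * ((∑ T ∈ st H v, f T) * ∑ T ∈ st H v, f T) =
      κ ^ 2 * (∑ T ∈ st H v, f T) ^ 2 * (1 + 8 * (θ * δ)) / π := by ring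
  linarith

end HR
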