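import Pool.Agent.Lib.MP_a1b8b7_co.HR.Ex
import Pool.Agent.Lib.MP_a1b8b7_co.HR.Rep
import Pool.Agent.Lib.MP_a1b8b7_co.HR.StR
import Pool.Agent.Lib.MP_a1b8b7_co.HR.StM
import Pool.Agent.Lib.MP_a1b8b7_co.HR.StF
import Pool.Agent.Lib.MP_a1b8b7_co.HR.Lin
import Pool.Agent.Lib.MP_a1b8b7_co.HR.StV2
import Pool.Agent.Lib.MP_a1b8b7_co.HR.StV
import Pool.Agent.Lib.MP_a1b8b7_co.HR.StS
import Pool.Agent.Lib.MP_a1b8b7_co.HR.Nib
import Pool.Agent.Lib.MP_a1b8b7_co.HR.NibF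
import Pool.Agent.Lib.MP_a1b8b7_co.HR.LP
import Pool.Agent.Lib.MP_a1b8b7_co.HR.RemT
import Pool.Agent.Lib.MP_a1b8b7_co.HR.RemC
import Pool.Agent.Lib.MP_a1b8b7_co.HR.Geo
import Pool.Agent.Lib.MP_a1b8b7_co.HR.Main

/-!
# Haxell-Roedl for triangles (dual form), and the reduction of Jacobson's problem to fractional
covers
-/

set_option autoImplicit false

open Finset

namespace HR

theorem a_StF : S_StF := t_StF t_Ex t_StR
theorem a_StM : S_StM := t_StM t_Ex t_StR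
theorem a_Lin : S_Lin := t_Lin t_StR
theorem a_StV2 : S_StV2 := t_StV2 t_Ex t_StR a_StF a_Lin
theorem a_StV : S_StV := t_StV t_Ex t_StR a_StF a_StV2
theorem a_StS : S_StS := t_StS t_Ex t_StR a_StM a_StF a_StV
theorem a_Nib : S_Nib := t_Nib t_StR a_StS t_Rep
theorem a_NibF : S_NibF := t_NibF a_Nib t_StR

/-- Haxell-Roedl for triangles: every graph on `n` vertices has a fractional triangle cover of
weight at most `ν₃(G) + ε n²`. -/
theorem main : S_Main := t_Main t_Rep a_NibF t_LP (t_RemC t_RemT) t_Geo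

/-- A fractional triangle cover of `G`, supported on the edges. -/
structure Cover {n : ℕ} (G : SimpleGraph (Fin n)) (w : Sym2 (Fin n) → ℝ) : Prop where
  nn : ∀ e, 0 ≤ w e
  le : ∀ e, w e ≤ 1
  off : ∀ e, e ∉ G.edgeSet → w e = 0
  cov : ∀ x y z, G.Adj x y → G.Adj y z → G.Adj x z → 1 ≤ w s(x, y) + w s(y, z) + w s(x, z)

/-- The bound for fractional covers (part B). -/
def S_Bound : Prop := ∀ ε : ℝ, 0 < ε → ∃ N : ℕ, ∀ n : ℕ, N ≤ n → ∀ G : SimpleGraph (Fin n),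
  ∀ wR wB : Sym2 (Fin n) → ℝ, Cover G wR → Cover Gᶜ wB →
    (1 / 20 - ε) * (n : ℝ) ^ 2 ≤ max (∑ e, wR e) (∑ e, wB e)

/-- Jacobson's problem (the frozen statement S10499) follows from the bound for fractional covers. -/
theorem jacobson (hB : S_Bound) :
    ∀ ε : ℝ, 0 < ε → ∃ N : ℕ, ∀ n : ℕ, N ≤ n → ∀ G : SimpleGraph (Fin n),
      ∃ H : SimpleGraph (Fin n), (H = G ∨ H = Gᶜ) ∧
        ∃ P : Finset (Finset (Fin n)),
          (∀ t ∈ P, H.IsNClique 3 t) ∧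
          (∀ t ∈ P, ∀ s ∈ P, t ≠ s → (t ∩ s).card ≤ 1) ∧
          ((1 : ℝ) / 20 - ε) * (n : ℝ) ^ 2 ≤ (P.card : ℝ) := by
  intro ε hε
  obtain ⟨N₁, h₁⟩ := main (ε / 2) (by positivity)
  obtain ⟨N₂, h₂⟩ := hB (ε / 2) (by positivity)
  refine ⟨max N₁ N₂, fun n hn G => ?_⟩
  obtain ⟨wR, hR1, hR2, hR3, PR, hPR1, hPR2, hPR3⟩ := h₁ n ((le_max_left _ _).trans hn) G
  obtain ⟨wB, hB1, hB2, hB3, PB, hPB1, hPB2, hPB3⟩ := h₁ n ((le_max_left _ _).trans hn) Gᶜ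
  have hb := h₂ n ((le_max_right _ _).trans hn) G wR wB
    ⟨fun e => (hR1 e).1, fun e => (hR1 e).2, hR2, hR3⟩
    ⟨fun e => (hB1 e).1, fun e => (hB1 e).2, hB2, hB3⟩
  rcases le_max_iff.1 hb with h | h
  · exact ⟨G, Or.inl rfl, PR, hPR1, hPR2, by linarith⟩
  · exact ⟨Gᶜ, Or.inr rfl, PB, hPB1, hPB2, by linarith⟩

end HR
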