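import Mathlib

/-!
# MP_a1b8b7_co, part A (Haxell-Roedl for triangles): definitions

`ν₃(G) ≥ τ₃*(G) - ε n²`.  Overview in `HR/Spec.lean`.
-/

set_option autoImplicit false

open Finset

namespace HR

/-! ## Random subsets of a finite set -/

/-- Probability of the outcome `S ⊆ H` if every `i ∈ H` is chosen independently with probability
`p i`. -/
def wt {ι : Type} [DecidableEq ι] (p : ι → ℝ) (H S : Finset ι) : ℝ :=
  (∏ i ∈ S, p i) * ∏ i ∈ H \ S, (1 - p i)

/-- Expectation of `g S` for the random subset `S` of `H`. -/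
def Ex {ι : Type} [DecidableEq ι] (p : ι → ℝ) (H : Finset ι) (g : Finset ι → ℝ) : ℝ :=
  ∑ S ∈ H.powerset, wt p H S * g S

/-! ## Weighted linear triple systems -/

variable {V : Type} [DecidableEq V]

/-- Weighted degree of `v`. -/
def deg (H : Finset (Finset V)) (f : Finset V → ℝ) (v : V) : ℝ :=
  ∑ T ∈ H.filter (fun T => v ∈ T), f T

/-- `H` is a linear system of triples in `U`. -/
structure Sys (U : Finset V) (H : Finset (Finset V)) : Prop where
  sub : ∀ T ∈ H, T ⊆ U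
  three : ∀ T ∈ H, T.card = 3
  lin : ∀ T ∈ H, ∀ T' ∈ H, T ≠ T' → (T ∩ T').card ≤ 1

/-- `f` is a fractional matching with all weights at most `δ`. -/
structure Frac (U : Finset V) (H : Finset (Finset V)) (f : Finset V → ℝ) (δ : ℝ) : Prop where
  nn : ∀ T ∈ H, 0 ≤ f T
  le : ∀ T ∈ H, f T ≤ δ
  dg : ∀ v ∈ U, deg H f v ≤ 1

/-- `M` is a matching in `H`. -/
def IsMat (H M : Finset (Finset V)) : Prop :=
  M ⊆ H ∧ ∀ T ∈ M, ∀ T' ∈ M, T ≠ T' → Disjoint T T'

/-- The triples of `H` meeting `T` (including `T`). -/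
def nb (H : Finset (Finset V)) (T : Finset V) : Finset (Finset V) :=
  H.filter (fun T' => ¬ Disjoint T T')

/-- The triples of `H` through `v`. -/
def st (H : Finset (Finset V)) (v : V) : Finset (Finset V) :=
  H.filter (fun T => v ∈ T)

/-- `∏_{i ∈ K} (1 - θ f(i))`: probability that no member of `K` is chosen. -/
def R (θ : ℝ) (f : Finset V → ℝ) (K : Finset (Finset V)) : ℝ := ∏ T ∈ K, (1 - θ * f T)

/-- The triples of `H` disjoint from all members of `S`. -/
def surv (H S : Finset (Finset V)) : Finset (Finset V) :=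
  H.filter (fun T => ∀ T' ∈ S, Disjoint T T')

/-- The vertices of `U` not covered by `S`. -/
def left (U : Finset V) (S : Finset (Finset V)) : Finset V :=
  U.filter (fun v => ∀ T' ∈ S, v ∉ T')

/-- The members of `S` disjoint from all other members. -/
def isol (S : Finset (Finset V)) : Finset (Finset V) :=
  S.filter (fun T => ∀ T' ∈ S, T' ≠ T → Disjoint T T')

/-- The new weights `f(T) (1 - θ) / P(T survives)`. -/
noncomputable def nw (H : Finset (Finset V)) (θ : ℝ) (f : Finset V → ℝ) (T : Finset V) : ℝ :=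
  f T * ((1 - θ) / R θ f (nb H T))

/-! ## Graphs -/

/-- The edges of `G`. -/
noncomputable def ed {n : ℕ} (G : SimpleGraph (Fin n)) : Finset (Sym2 (Fin n)) := by
  classical exact Finset.univ.filter (fun e => e ∈ G.edgeSet)

/-- The ordered triangles of `G`. -/
noncomputable def tr {n : ℕ} (G : SimpleGraph (Fin n)) : Finset (Fin n × Fin n × Fin n) := by
  classical exact Finset.univ.filter (fun q => G.Adj q.1 q.2.1 ∧ G.Adj q.2.1 q.2.2 ∧ G.Adj q.1 q.2.2)

/-- The three pairs of a triple. -/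
def tri {n : ℕ} (q : Fin n × Fin n × Fin n) : Finset (Sym2 (Fin n)) :=
  {s(q.1, q.2.1), s(q.2.1, q.2.2), s(q.1, q.2.2)}

/-- The triple system of the triangles of `G` (triples of edges). -/
noncomputable def hyp {n : ℕ} (G : SimpleGraph (Fin n)) : Finset (Finset (Sym2 (Fin n))) :=
  (tr G).image tri

theorem mem_ed {n : ℕ} {G : SimpleGraph (Fin n)} {e : Sym2 (Fin n)} : e ∈ ed G ↔ e ∈ G.edgeSet := by
  classical
  simp [ed]

theorem mem_tr {n : ℕ} {G : SimpleGraph (Fin n)} {q : Fin n × Fin n × Fin n} : q ∈ tr G ↔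
    G.Adj q.1 q.2.1 ∧ G.Adj q.2.1 q.2.2 ∧ G.Adj q.1 q.2.2 := by
  classical
  simp [tr]

theorem tri_ne {n : ℕ} {G : SimpleGraph (Fin n)} {q : Fin n × Fin n × Fin n} (hq : q ∈ tr G) :
    s(q.1, q.2.1) ≠ s(q.2.1, q.2.2) ∧ s(q.1, q.2.1) ≠ s(q.1, q.2.2) ∧
      s(q.2.1, q.2.2) ≠ s(q.1, q.2.2) := by
  obtain ⟨h1, h2, h3⟩ := mem_tr.1 hq
  have e1 := h1.ne
  have e2 := h2.ne
  have e3 := h3.ne
  refine ⟨?_, ?_, ?_⟩ <;> simp only [ne_eq, Sym2.eq_iff] <;> tauto

theorem tri_card {n : ℕ} {G : SimpleGraph (Fin n)} {q : Fin n × Fin n × Fin n} (hq : q ∈ tr G) :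
    (tri q).card = 3 := by
  obtain ⟨h1, h2, h3⟩ := tri_ne hq
  unfold tri
  rw [Finset.card_insert_of_notMem, Finset.card_insert_of_notMem, Finset.card_singleton]
  · simp [h3]
  · simp [h1, h2]

theorem tri_sum {n : ℕ} {G : SimpleGraph (Fin n)} {q : Fin n × Fin n × Fin n} (hq : q ∈ tr G)
    (w : Sym2 (Fin n) → ℝ) :
    ∑ e ∈ tri q, w e = w s(q.1, q.2.1) + w s(q.2.1, q.2.2) + w s(q.1, q.2.2) := by
  obtain ⟨h1, h2, h3⟩ := tri_ne hq
  unfold tri
  rw [Finset.sum_insert, Finset.sum_insert, Finset.sum_singleton]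
  · ring
  · simp [h3]
  · simp [h1, h2]

end HR
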