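import Pool.Agent.Lib.MP_a1b8b7_co.HR.Spec

/-!
# HR.Ex: rules for the random subset
-/

set_option autoImplicit false

open Finset

namespace HR

section

variable {ι : Type} [DecidableEq ι]

theorem Ex_prod (p : ι → ℝ) (H : Finset ι) (a b : ι → ℝ) :
    Ex p H (fun S => ∏ i ∈ H, if i ∈ S then a i else b i) =
      ∏ i ∈ H, (p i * a i + (1 - p i) * b i) := by
  unfold Ex wt
  rw [Finset.prod_add]
  refine Finset.sum_congr rfl fun S hS => ?_
  have hSH : S ⊆ H := Finset.mem_powerset.1 hS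
  have h1 : (∏ i ∈ H, if i ∈ S then a i else b i) = (∏ i ∈ S, a i) * ∏ i ∈ H \ S, b i := by
    rw [← Finset.prod_sdiff hSH, mul_comm]
    congr 1
    · exact Finset.prod_congr rfl fun i hi => if_pos hi
    · exact Finset.prod_congr rfl fun i hi => if_neg (Finset.mem_sdiff.1 hi).2
  show ((∏ i ∈ S, p i) * ∏ i ∈ H \ S, (1 - p i)) * (∏ i ∈ H, if i ∈ S then a i else b i) = _
  rw [h1, Finset.prod_mul_distrib, Finset.prod_mul_distrib]
  ring

theorem Ex_congr (p : ι → ℝ) (H : Finset ι) {g g' : Finset ι → ℝ}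
    (h : ∀ S, S ⊆ H → g S = g' S) : Ex p H g = Ex p H g' := by
  unfold Ex
  exact Finset.sum_congr rfl fun S hS => by rw [h S (Finset.mem_powerset.1 hS)]

theorem Ex_one (p : ι → ℝ) (H : Finset ι) : Ex p H (fun _ => 1) = 1 := by
  have h := Ex_prod p H (fun _ => 1) (fun _ => 1)
  rw [Ex_congr p H (g' := fun _ => 1)] at h
  · rw [h]
    refine Finset.prod_eq_one fun i _ => ?_
    ring
  · intro S _
    refine Finset.prod_eq_one fun i _ => ?_
    split_ifs <;> rfl

theorem Ex_avoid (p : ι → ℝ) (H K : Finset ι) (hK : K ⊆ H) :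
    Ex p H (fun S => if Disjoint S K then 1 else 0) = ∏ i ∈ K, (1 - p i) := by
  have h := Ex_prod p H (fun i => if i ∈ K then 0 else 1) (fun _ => 1)
  rw [Ex_congr p H (g' := fun S => if Disjoint S K then 1 else 0)] at h
  · rw [h, ← Finset.prod_sdiff hK]
    have h1 : ∏ i ∈ H \ K, (p i * (if i ∈ K then (0 : ℝ) else 1) + (1 - p i) * 1) = 1 := by
      refine Finset.prod_eq_one fun i hi => ?_
      rw [if_neg (Finset.mem_sdiff.1 hi).2]
      ring
    rw [h1, one_mul]
    refine Finset.prod_congr rfl fun i hi => ?_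
    rw [if_pos hi]
    ring
  · intro S hS
    by_cases hd : Disjoint S K
    · rw [if_pos hd]
      refine Finset.prod_eq_one fun i _ => ?_
      by_cases hi : i ∈ S
      · rw [if_pos hi, if_neg (Finset.disjoint_left.1 hd hi)]
      · rw [if_neg hi]
    · rw [if_neg hd]
      rw [Finset.not_disjoint_iff] at hd
      obtain ⟨i, hiS, hiK⟩ := hd
      refine Finset.prod_eq_zero (hS hiS) ?_
      rw [if_pos hiS, if_pos hiK]

theorem Ex_mem2 (p : ι → ℝ) (H : Finset ι) (i : ι) (hi : i ∈ H) (j : ι) (hj : j ∈ H)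
    (hij : i ≠ j) : Ex p H (fun S => if i ∈ S ∧ j ∈ S then 1 else 0) = p i * p j := by
  have h := Ex_prod p H (fun _ => 1) (fun k => if k = i ∨ k = j then 0 else 1)
  rw [Ex_congr p H (g' := fun S => if i ∈ S ∧ j ∈ S then 1 else 0)] at h
  · rw [h, ← Finset.mul_prod_erase H _ hi,
      ← Finset.mul_prod_erase (H.erase i) _ (Finset.mem_erase.2 ⟨hij.symm, hj⟩)]
    have h1 : ∏ k ∈ (H.erase i).erase j,
        (p k * (1 : ℝ) + (1 - p k) * (if k = i ∨ k = j then 0 else 1)) = 1 := by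
      refine Finset.prod_eq_one fun k hk => ?_
      have h2 : k ≠ j := (Finset.mem_erase.1 hk).1
      have h3 : k ≠ i := (Finset.mem_erase.1 (Finset.mem_erase.1 hk).2).1
      rw [if_neg (by tauto)]
      ring
    rw [h1, if_pos (Or.inl rfl), if_pos (Or.inr rfl)]
    ring
  · intro S hS
    by_cases hd : i ∈ S ∧ j ∈ S
    · rw [if_pos hd]
      refine Finset.prod_eq_one fun k _ => ?_
      by_cases hk : k ∈ S
      · rw [if_pos hk]
      · rw [if_neg hk, if_neg]
        rintro (rfl | rfl)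
        · exact hk hd.1
        · exact hk hd.2
    · rw [if_neg hd]
      rcases not_and_or.1 hd with h1 | h1
      · refine Finset.prod_eq_zero hi ?_
        rw [if_neg h1, if_pos (Or.inl rfl)]
      · refine Finset.prod_eq_zero hj ?_
        rw [if_neg h1, if_pos (Or.inr rfl)]

theorem Ex_mem (p : ι → ℝ) (H : Finset ι) (i : ι) (hi : i ∈ H) :
    Ex p H (fun S => if i ∈ S then 1 else 0) = p i := by
  have h := Ex_prod p H (fun _ => 1) (fun k => if k = i then 0 else 1)
  rw [Ex_congr p H (g' := fun S => if i ∈ S then 1 else 0)] at h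
  · rw [h, ← Finset.mul_prod_erase H _ hi]
    have h1 : ∏ k ∈ H.erase i, (p k * (1 : ℝ) + (1 - p k) * (if k = i then 0 else 1)) = 1 := by
      refine Finset.prod_eq_one fun k hk => ?_
      rw [if_neg (Finset.mem_erase.1 hk).1]
      ring
    rw [h1, if_pos rfl]
    ring
  · intro S hS
    by_cases hd : i ∈ S
    · rw [if_pos hd]
      refine Finset.prod_eq_one fun k _ => ?_
      by_cases hk : k ∈ S
      · rw [if_pos hk]
      · rw [if_neg hk, if_neg]
        rintro rfl
        exact hk hd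
    · rw [if_neg hd]
      refine Finset.prod_eq_zero hi ?_
      rw [if_neg hd, if_pos rfl]

theorem wt_nonneg (p : ι → ℝ) (H S : Finset ι) (hp : ∀ i ∈ H, 0 ≤ p i ∧ p i ≤ 1) (hS : S ⊆ H) :
    0 ≤ wt p H S :=
  mul_nonneg (Finset.prod_nonneg fun i hi => (hp i (hS hi)).1)
    (Finset.prod_nonneg fun i hi => sub_nonneg.2 (hp i (Finset.mem_sdiff.1 hi).1).2)

theorem Ex_mono (p : ι → ℝ) (H : Finset ι) (hp : ∀ i ∈ H, 0 ≤ p i ∧ p i ≤ 1)
    (g g' : Finset ι → ℝ) (h : ∀ S, S ⊆ H → g S ≤ g' S) : Ex p H g ≤ Ex p H g' := by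
  unfold Ex
  exact Finset.sum_le_sum fun S hS =>
    mul_le_mul_of_nonneg_left (h S (Finset.mem_powerset.1 hS))
      (wt_nonneg p H S hp (Finset.mem_powerset.1 hS))

theorem Ex_add (p : ι → ℝ) (H : Finset ι) (g g' : Finset ι → ℝ) :
    Ex p H (fun S => g S + g' S) = Ex p H g + Ex p H g' := by
  unfold Ex
  rw [← Finset.sum_add_distrib]
  exact Finset.sum_congr rfl fun S _ => by ring

theorem Ex_mul (p : ι → ℝ) (H : Finset ι) (g : Finset ι → ℝ) (c : ℝ) :
    Ex p H (fun S => c * g S) = c * Ex p H g := by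
  unfold Ex
  rw [Finset.mul_sum]
  exact Finset.sum_congr rfl fun S _ => by ring

theorem Ex_exists (p : ι → ℝ) (H : Finset ι) (hp : ∀ i ∈ H, 0 ≤ p i ∧ p i ≤ 1)
    (g : Finset ι → ℝ) (c : ℝ) (hc : c ≤ Ex p H g) : ∃ S, S ⊆ H ∧ c ≤ g S := by
  by_contra hcon
  push Not at hcon
  have h1 : Ex p H (fun _ => c) = c := by
    have h0 := Ex_mul p H (fun _ => 1) c
    rw [Ex_one, mul_one] at h0
    exact h0
  have h2 : ∑ S ∈ H.powerset, wt p H S = 1 := by
    have := Ex_one p H
    unfold Ex at this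
    simpa using this
  obtain ⟨S₀, hS₀, hpos⟩ : ∃ S ∈ H.powerset, 0 < wt p H S := by
    by_contra hneg
    push Not at hneg
    have := Finset.sum_nonpos hneg
    rw [h2] at this
    linarith
  have h3 : Ex p H g < Ex p H (fun _ => c) := by
    unfold Ex
    refine Finset.sum_lt_sum (fun S hS => ?_) ⟨S₀, hS₀, ?_⟩
    · exact mul_le_mul_of_nonneg_left (hcon S (Finset.mem_powerset.1 hS)).le
        (wt_nonneg p H S hp (Finset.mem_powerset.1 hS))
    · exact mul_lt_mul_of_pos_left (hcon S₀ (Finset.mem_powerset.1 hS₀)) hpos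
  rw [h1] at h3
  linarith

end

theorem t_Ex : S_Ex := by
  intro ι _ p H
  exact ⟨Ex_prod p H, Ex_one p H, Ex_avoid p H, Ex_mem p H, Ex_mem2 p H, Ex_mono p H,
    Ex_exists p H, Ex_add p H, Ex_mul p H⟩

end HR
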