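import Pool.Agent.Lib.MP_a1b8b7_co.HR.Spec

/-!
# HR.NibF: choice of the constants in the nibble
-/

set_option autoImplicit false

open Finset

namespace HR

theorem t_NibF (hNib : S_Nib) (hStR : S_StR) : S_NibF := by
  intro ε hε
  -- the constants
  obtain ⟨m', hm'⟩ : ∃ m' : ℕ, Real.exp (-(m' : ℝ)) ≤ ε / 3 := by
    obtain ⟨k, hk⟩ := exists_nat_gt (3 / ε)
    refine ⟨k, ?_⟩
    have h1 : (k : ℝ) + 1 ≤ Real.exp k := Real.add_one_le_exp _
    have h2 : 3 / ε < Real.exp k := by linarith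
    rw [Real.exp_neg]
    have h3 : 0 < 3 / ε := by positivity
    have h4 := inv_anti₀ h3 h2.le
    rwa [inv_div] at h4
  obtain ⟨m, hm⟩ := exists_nat_ge (max 6 (3 * m' / ε))
  have hm6 : (6 : ℝ) ≤ m := (le_max_left _ _).trans hm
  have hm3 : 3 * (m' : ℝ) / ε ≤ m := (le_max_right _ _).trans hm
  have hmpos : (0 : ℝ) < m := by linarith
  set θ : ℝ := 1 / m with hθdef
  have hθ0 : 0 ≤ θ := by positivity
  have hθ : θ ≤ 1 / 6 := one_div_le_one_div_of_le (by norm_num) hm6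
  set r : ℕ := m * m' with hrdef
  have hθr : θ * (r : ℝ) = m' := by
    rw [hθdef, hrdef]
    push_cast
    field_simp
  have hpow : (1 - θ) ^ r ≤ ε / 3 := by
    have h1 : 1 - θ ≤ Real.exp (-θ) := by
      have := Real.add_one_le_exp (-θ)
      linarith
    have h2 : (1 - θ) ^ r ≤ (Real.exp (-θ)) ^ r := pow_le_pow_left₀ (by linarith) h1 r
    rw [← Real.exp_nat_mul] at h2
    have h3 : (r : ℝ) * -θ = -(m' : ℝ) := by rw [← hθr]; ring
    rw [h3] at h2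
    exact h2.trans hm'
  have hrθ : (r : ℝ) * θ ^ 2 ≤ ε / 3 := by
    have h1 : (r : ℝ) * θ ^ 2 = m' / m := by
      have : (r : ℝ) * θ ^ 2 = (θ * r) * θ := by ring
      rw [this, hθr, hθdef]
      ring
    rw [h1, div_le_div_iff₀ hmpos (by norm_num)]
    rw [div_le_iff₀ hε] at hm3
    linarith
  set x : ℝ := ε / (6 * (r + 1)) with hxdef
  have hx : 0 < x := by positivity
  set D : ℝ := min (1 / 2) (x ^ 2) with hDdef
  have hD0 : 0 < D := lt_min (by norm_num) (by positivity)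
  have hD : D ≤ 1 / 2 := min_le_left _ _
  have hsD : Real.sqrt D ≤ x := by
    have h1 : Real.sqrt D ≤ Real.sqrt (x ^ 2) := Real.sqrt_le_sqrt (min_le_right _ _)
    rwa [Real.sqrt_sq hx.le] at h1
  have hr0 : (0 : ℝ) ≤ r := Nat.cast_nonneg _
  have hrD : (r : ℝ) * (2 * Real.sqrt D) ≤ ε / 3 := by
    have h1 : (r : ℝ) * (2 * Real.sqrt D) ≤ r * (2 * x) := by gcongr
    have h2 : (r : ℝ) * (2 * x) ≤ ε / 3 := by
      rw [hxdef]
      rw [show (r : ℝ) * (2 * (ε / (6 * (r + 1)))) = (r * ε) / (3 * (r + 1)) by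
        field_simp; ring]
      rw [div_le_div_iff₀ (by positivity) (by norm_num)]
      nlinarith
    exact h1.trans h2
  have hκ : 0 < 1 - 3 * θ := by linarith
  have hκ1 : 1 - 3 * θ ≤ 1 := by linarith
  have hP : 0 < (1 - 3 * θ) ^ r := pow_pos hκ r
  have hP1 : (1 - 3 * θ) ^ r ≤ 1 := pow_le_one₀ hκ.le hκ1
  refine ⟨D * (1 - 3 * θ) ^ r, by positivity, ?_⟩
  intro V _ U H f hS hF
  have hδ : D * (1 - 3 * θ) ^ r ≤ 1 / 2 := by
    have : D * (1 - 3 * θ) ^ r ≤ D * 1 := by gcongr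
    linarith
  obtain ⟨-, -, -, -, hr5, -⟩ := hStR V U H f _ θ hS hF (by linarith) hθ0 hθ
  obtain ⟨M, hM, hMc⟩ := hNib θ D hθ0 hθ hD r V U H f _ hS hF (by positivity)
    (by rw [mul_div_assoc, div_self hP.ne', mul_one])
  refine ⟨M, hM, ?_⟩
  have hF0 : 0 ≤ ∑ T ∈ H, f T := Finset.sum_nonneg fun T hT => hF.nn T hT
  have hU0 : (0 : ℝ) ≤ U.card := Nat.cast_nonneg _
  have h1 : (1 - θ) ^ r * ∑ T ∈ H, f T ≤ ε / 3 * U.card := by
    have h2 : (1 - θ) ^ r * ∑ T ∈ H, f T ≤ ε / 3 * ∑ T ∈ H, f T :=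
      mul_le_mul_of_nonneg_right hpow hF0
    have h3 : ε / 3 * ∑ T ∈ H, f T ≤ ε / 3 * U.card :=
      mul_le_mul_of_nonneg_left (by linarith) (by positivity)
    exact h2.trans h3
  have h4 : (r : ℝ) * (θ ^ 2 + 2 * Real.sqrt D) * U.card ≤ (ε / 3 + ε / 3) * U.card := by
    have : (r : ℝ) * (θ ^ 2 + 2 * Real.sqrt D) ≤ ε / 3 + ε / 3 := by
      rw [mul_add]
      exact add_le_add hrθ hrD
    exact mul_le_mul_of_nonneg_right this hU0
  nlinarith [h1, h4, hMc]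

end HR
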