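import Pool.Agent.Lib.MP_a1b8b7_co.HR.Defs

/-!
# MP_a1b8b7_co, part A (Haxell-Roedl for triangles): statements with complete proofs

GOAL `S_Main`: for every graph on `n` vertices there is a fractional triangle cover `w` of weight
at most `ν₃(G) + ε n²`.

PLAN.  (1) `S_LP`: LP duality with capacity `δ` (a small constant): a fractional triangle packing
`f ≤ δ` (up to an overload) and `w : E → [0,1]` with
`∑ w + δ ∑_T (1 - w(T))⁺ ≤ ∑ f - ∑ (deg f - 1)⁺`.  (2) `S_Rep`: remove the overload.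
(3) `S_NibF` (weighted nibble): a fractional matching `f ≤ δ` of a linear triple system gives a
matching of size `≥ ∑ f - ε |U|`.  (4) The right hand side is `≤ |E|/3`, so
`∑_T (1 - w(T))⁺ ≤ n² / δ ≤ η n³` for large `n`, and `S_RemC` (removal lemma) turns `w` into a
cover at the cost of `ε n²`.

NIBBLE, ONE ROUND (`θ ≤ 1/6`, `κ = 1 - θ`): choose every `T ∈ H` independently with probability
`p T = θ f T`; `S` the random set of chosen triples.  `isol S`: the chosen triples which meet no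
other chosen one (part of the matching), `left U S`: the remaining vertices, `surv H S` the
remaining triples, `nw H θ f T = f T κ / P(T survives)` the new weights.

Every module proves `theorem t_X ... : S_X` (with the used statements `S_Y` as hypotheses, in
the order given).
-/

set_option autoImplicit false

open Finset

namespace HR

/-! ## Random subsets -/

/-- **Ex.** Rules for `Ex`.  (1) product formula, (2) total mass, (3) avoiding `K`, (4) membership,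
(5) two members, (6) monotone, (7) existence, (8) sums, (9) constants.
Proof. (1) `wt p H S * ∏_{i ∈ H} (if i ∈ S then a i else b i)
= (∏_{i ∈ S} p i a i) (∏_{i ∈ H \ S} (1 - p i) b i)` for `S ⊆ H`; `Finset.prod_add`.
(2) `a = b = 1`. (3) `1[S ∩ K = ∅] = ∏_{i ∈ H} (if i ∈ S then (if i ∈ K then 0 else 1) else 1)`.
(4) `a = 1`, `b i = 0` for the given element and `1` otherwise; or (3) with `K = {i}` and (2).
(5) the same. (6) `wt ≥ 0`. (7) otherwise `g S < c` for all `S`, so `Ex g < c` by (2)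
(some `wt` is positive since the sum is `1`), or `Ex (g - c) ≤ ...`. (8), (9) clear. -/
def S_Ex : Prop := ∀ (ι : Type) [DecidableEq ι] (p : ι → ℝ) (H : Finset ι),
  (∀ a b : ι → ℝ, Ex p H (fun S => ∏ i ∈ H, if i ∈ S then a i else b i) =
    ∏ i ∈ H, (p i * a i + (1 - p i) * b i)) ∧
  (Ex p H (fun _ => 1) = 1) ∧
  (∀ K : Finset ι, K ⊆ H → Ex p H (fun S => if Disjoint S K then 1 else 0) = ∏ i ∈ K, (1 - p i)) ∧
  (∀ i ∈ H, Ex p H (fun S => if i ∈ S then 1 else 0) = p i) ∧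
  (∀ i ∈ H, ∀ j ∈ H, i ≠ j → Ex p H (fun S => if i ∈ S ∧ j ∈ S then 1 else 0) = p i * p j) ∧
  ((∀ i ∈ H, 0 ≤ p i ∧ p i ≤ 1) → ∀ g g' : Finset ι → ℝ, (∀ S, S ⊆ H → g S ≤ g' S) →
    Ex p H g ≤ Ex p H g') ∧
  ((∀ i ∈ H, 0 ≤ p i ∧ p i ≤ 1) → ∀ (g : Finset ι → ℝ) (c : ℝ), c ≤ Ex p H g →
    ∃ S, S ⊆ H ∧ c ≤ g S) ∧
  (∀ g g' : Finset ι → ℝ, Ex p H (fun S => g S + g' S) = Ex p H g + Ex p H g') ∧
  (∀ (g : Finset ι → ℝ) (c : ℝ), Ex p H (fun S => c * g S) = c * Ex p H g)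

/-! ## Repair -/

/-- **Rep.** Removing the overload.
Proof. `a v := 1 / max 1 (deg f v)` for `v ∈ U`, `f' T := f T * ∏_{v ∈ T} a v`, `0 < a v ≤ 1`.
`deg f' v ≤ ∑_{T ∋ v} f T a v = deg f v / max 1 (deg f v) ≤ 1`.
`1 - ∏_{v ∈ T} a v ≤ ∑_{v ∈ T} (1 - a v)`, so `∑ f - ∑ f' ≤ ∑_T f T ∑_{v ∈ T} (1 - a v)
= ∑_{v ∈ U} (1 - a v) deg f v ≤ ∑_{v ∈ U} (deg f v - 1)⁺`, because
`(1 - 1/max 1 d) d = (d - 1)⁺ d / max 1 d ≤ (d - 1)⁺`. -/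
def S_Rep : Prop := ∀ (V : Type) [DecidableEq V] (U : Finset V) (H : Finset (Finset V))
  (f : Finset V → ℝ), (∀ T ∈ H, T ⊆ U) → (∀ T ∈ H, 0 ≤ f T) →
  ∃ f' : Finset V → ℝ, (∀ T ∈ H, 0 ≤ f' T ∧ f' T ≤ f T) ∧ (∀ v ∈ U, deg H f' v ≤ 1) ∧
    ∑ T ∈ H, f T - ∑ v ∈ U, max (deg H f v - 1) 0 ≤ ∑ T ∈ H, f' T

/-! ## One round of the nibble -/

/-- **StR.** Elementary bounds (`0 ≤ θ ≤ 1/6`, `δ ≤ 1`).
(1) `0 ≤ θ f T ≤ 1/6` for `T ∈ H`; (2) `1 - 3 θ ≤ R (nb H T) ≤ 1`; (3) `1 - θ ≤ R (st H v) ≤ 1` for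
`v ∈ U`; (4) `0 ≤ nw T ≤ f T / (1 - 3 θ)`; (5) `3 ∑ f ≤ |U|`; (6) `∑_{nb H T} θ f ≤ 3 θ`.
Proof. (1) `f T ≤ δ ≤ 1`. Weierstrass: `∏ (1 - x_i) ≥ 1 - ∑ x_i` for `x_i ∈ [0,1]`
(`Finset.one_sub_sum_le_prod_one_sub` or induction). `∑_{T' ∈ nb H T} θ f T' ≤ ∑_{v ∈ T} θ deg f v
≤ 3 θ`, since `nb H T` is the union of the `st H v`, `v ∈ T ⊆ U`. (4) `κ / R ≤ 1 / (1 - 3 θ)`.
(5) `∑_{v ∈ U} deg f v = ∑_T f T |T| = 3 ∑ f` (double counting). -/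
def S_StR : Prop := ∀ (V : Type) [DecidableEq V] (U : Finset V) (H : Finset (Finset V))
  (f : Finset V → ℝ) (δ θ : ℝ), Sys U H → Frac U H f δ → δ ≤ 1 → 0 ≤ θ → θ ≤ 1 / 6 →
  (∀ T ∈ H, 0 ≤ θ * f T ∧ θ * f T ≤ 1 / 6) ∧
  (∀ T ∈ H, 1 - 3 * θ ≤ R θ f (nb H T) ∧ R θ f (nb H T) ≤ 1) ∧
  (∀ v ∈ U, 1 - θ ≤ R θ f (st H v) ∧ R θ f (st H v) ≤ 1) ∧
  (∀ T ∈ H, 0 ≤ nw H θ f T ∧ nw H θ f T ≤ f T / (1 - 3 * θ)) ∧
  (3 * ∑ T ∈ H, f T ≤ U.card) ∧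
  (∀ T ∈ H, ∑ T' ∈ nb H T, θ * f T' ≤ 3 * θ)

/-- **StM.** Expected number of isolated chosen triples.
Proof (uses `S_Ex`, `S_StR`). `|isol S| ≥ |S| - ∑_{T ∈ S} |{T' ∈ S : T' ≠ T, not disjoint}|` (a
non-isolated `T` contributes `1 - (≥ 1) ≤ 0`), i.e. `|isol S| ≥ ∑_{T ∈ H} 1[T ∈ S] -
∑_{T ∈ H} ∑_{T' ∈ nb H T, T' ≠ T} 1[T ∈ S, T' ∈ S]`; expectation
`≥ θ F - ∑_T θ f T ∑_{T' ∈ nb H T} θ f T' ≥ θ F - 3 θ · θ F`, and `3 F ≤ |U|`. -/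
def S_StM : Prop := ∀ (V : Type) [DecidableEq V] (U : Finset V) (H : Finset (Finset V))
  (f : Finset V → ℝ) (δ θ : ℝ), Sys U H → Frac U H f δ → δ ≤ 1 → 0 ≤ θ → θ ≤ 1 / 6 →
  θ * ∑ T ∈ H, f T - θ ^ 2 * U.card ≤ Ex (fun T => θ * f T) H (fun S => ((isol S).card : ℝ))

/-- **StF.** (1) `P(T survives) = R (nb H T)`, (2) `P(T, T' survive) = R (nb H T ∪ nb H T')`,
(3) `P(v not covered) = R (st H v)`, (4) expected total new weight, (5) expected new degree.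
Proof (uses `S_Ex`, `S_StR`). For `S ⊆ H`, `T ∈ H`: `T ∈ surv H S ↔ Disjoint S (nb H T)`;
`v` is not covered iff `Disjoint S (st H v)`; Ex (3). (4) `∑_{T ∈ surv H S} nw T =
∑_{T ∈ H} nw T 1[T ∈ surv H S]`, and `nw T · R (nb H T) = κ f T` (`R (nb H T) ≠ 0`). (5) the same. -/
def S_StF : Prop := ∀ (V : Type) [DecidableEq V] (U : Finset V) (H : Finset (Finset V))
  (f : Finset V → ℝ) (δ θ : ℝ), Sys U H → Frac U H f δ → δ ≤ 1 → 0 ≤ θ → θ ≤ 1 / 6 →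
  (∀ T ∈ H, Ex (fun T => θ * f T) H (fun S => if T ∈ surv H S then 1 else 0) =
    R θ f (nb H T)) ∧
  (∀ T ∈ H, ∀ T' ∈ H, Ex (fun T => θ * f T) H
    (fun S => if T ∈ surv H S ∧ T' ∈ surv H S then 1 else 0) = R θ f (nb H T ∪ nb H T')) ∧
  (∀ v : V, Ex (fun T => θ * f T) H (fun S => if (∀ T' ∈ S, v ∉ T') then 1 else 0) =
    R θ f (st H v)) ∧
  (Ex (fun T => θ * f T) H (fun S => ∑ T ∈ surv H S, nw H θ f T) = (1 - θ) * ∑ T ∈ H, f T) ∧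
  (∀ v : V, Ex (fun T => θ * f T) H (fun S => deg (surv H S) (nw H θ f) v) =
    (1 - θ) * deg H f v)

/-- **Lin.** Linearity.  For `T ≠ T'` in `st H v`: `R (nb H T) R (nb H T') ≤
R (nb H T ∪ nb H T') ... ` precisely, with `θ δ ≤ 1/8`:
`R (nb H T ∪ nb H T') * R (st H v) ≤ (1 + 8 θ δ) * (R (nb H T) * R (nb H T'))`.
Proof (uses `S_StR`). `R (K ∪ L) R (K ∩ L) = R K R L` (`Finset.prod_union_inter`), `K = nb H T`,
`L = nb H T'`. `st H v ⊆ K ∩ L`; put `Z := (K ∩ L) \ st H v`, so `R (K ∩ L) = R (st H v) R Z`.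
`|Z| ≤ 4`: `T'' ∈ Z` meets `T` in some `a ≠ v` and `T'` in some `b ≠ v` (`v ∉ T''`); `a ≠ b` because
`T ∩ T' = {v}` (`lin`); `T''` is determined by the pair `(a, b) ∈ (T \ v) × (T' \ v)` (two triples
with two common points are equal), `2 · 2 = 4` pairs. So `R Z ≥ (1 - θ δ)^4` and
`(1 - x)^4 (1 + 8 x) ≥ 1` for `0 ≤ x ≤ 1/8` (`(1 - x)^4 ≥ 1 - 4 x`,
`(1 - 4 x)(1 + 8 x) = 1 + 4 x - 32 x² ≥ 1`). So `R (K ∪ L) R (st H v) = R K R L / R Z ≤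
(1 + 8 θ δ) R K R L`. -/
def S_Lin : Prop := ∀ (V : Type) [DecidableEq V] (U : Finset V) (H : Finset (Finset V))
  (f : Finset V → ℝ) (δ θ : ℝ), Sys U H → Frac U H f δ → 0 < δ → δ ≤ 1 / 2 → 0 ≤ θ → θ ≤ 1 / 6 →
  ∀ v ∈ U, ∀ T ∈ st H v, ∀ T' ∈ st H v, T ≠ T' →
    R θ f (nb H T ∪ nb H T') * R θ f (st H v) ≤
      (1 + 8 * (θ * δ)) * (R θ f (nb H T) * R θ f (nb H T'))

/-- **StV2.** Second moment of the new degree `d'` (`κ = 1 - θ`, `d = deg H f v`,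
`π = R (st H v)`): `E d'² ≤ 2 δ + κ² d² (1 + 8 θ δ) / π`.
Proof (uses `S_Ex`, `S_StR`, `S_StF`, `S_Lin`). `d'(S) = ∑_{T ∈ st H v} nw T 1[T ∈ surv H S]`,
`E d'² = ∑_{T, T' ∈ st H v} nw T nw T' R (nb H T ∪ nb H T')` (StF (2)). Diagonal terms:
`(nw T)² R (nb H T) = f T² κ² / R (nb H T) ≤ f T² / (1 - 3 θ) ≤ 2 δ f T`, sum `≤ 2 δ`.
`T ≠ T'`: by Lin `nw T nw T' R (..) = f T f T' κ² R (..) / (R (nb H T) R (nb H T'))
≤ f T f T' κ² (1 + 8 θ δ) / π`; the sum over all pairs of `f T f T'` is `≤ d²`. -/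
def S_StV2 : Prop := ∀ (V : Type) [DecidableEq V] (U : Finset V) (H : Finset (Finset V))
  (f : Finset V → ℝ) (δ θ : ℝ), Sys U H → Frac U H f δ → 0 < δ → δ ≤ 1 / 2 → 0 ≤ θ → θ ≤ 1 / 6 →
  ∀ v ∈ U, Ex (fun T => θ * f T) H (fun S => (deg (surv H S) (nw H θ f) v) ^ 2) ≤
    2 * δ + (1 - θ) ^ 2 * (deg H f v) ^ 2 * (1 + 8 * (θ * δ)) / R θ f (st H v)

/-- **StV.** Expected overload at `v`.
Proof (uses `S_Ex`, `S_StR`, `S_StF`, `S_StV2`). `κ = 1 - θ`, `d = deg H f v ∈ [0,1]`,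
`π = R (st H v) ∈ [κ, 1]`, `m := κ d / π ≤ 1`, `I(S) := 1[v not covered by S]`,
`X(S) := d'(S) - m I(S)`. If `v` is covered by `S` then no `T ∋ v` survives and `d'(S) = 0`; so
`d' I = d'` and `E X² = E d'² - 2 m E d' + m² E I ≤ 2 δ + κ² d² (1 + 8 θ δ)/π - 2 m κ d + m² π
= 2 δ + 8 θ δ κ² d²/π ≤ 4 δ`. `(d' - 1)⁺ ≤ |X|` because `m I ≤ 1`; `|X| ≤ √δ + X²/(4 √δ)`
(AM-GM), so `E (d' - 1)⁺ ≤ √δ + √δ`. -/
def S_StV : Prop := ∀ (V : Type) [DecidableEq V] (U : Finset V) (H : Finset (Finset V))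
  (f : Finset V → ℝ) (δ θ : ℝ), Sys U H → Frac U H f δ → 0 < δ → δ ≤ 1 / 2 → 0 ≤ θ → θ ≤ 1 / 6 →
  ∀ v ∈ U, Ex (fun T => θ * f T) H (fun S => max (deg (surv H S) (nw H θ f) v - 1) 0) ≤
    2 * Real.sqrt δ

/-- **StS.** One round.
Proof (uses `S_Ex`, `S_StR`, `S_StM`, `S_StF`, `S_StV`). The expectation of the right hand side is
`≥ θ F - θ² |U| + c ((1 - θ) F - 2 √δ |U|)`, and `c ≤ 1`; Ex (7). -/
def S_StS : Prop := ∀ (V : Type) [DecidableEq V] (U : Finset V) (H : Finset (Finset V))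
  (f : Finset V → ℝ) (δ θ : ℝ), Sys U H → Frac U H f δ → 0 < δ → δ ≤ 1 / 2 → 0 ≤ θ → θ ≤ 1 / 6 →
  ∀ c : ℝ, 0 ≤ c → c ≤ 1 → ∃ S, S ⊆ H ∧
    (θ + c * (1 - θ)) * ∑ T ∈ H, f T - (θ ^ 2 + 2 * Real.sqrt δ) * U.card ≤
      (isol S).card + c * (∑ T ∈ surv H S, nw H θ f T -
        ∑ v ∈ U, max (deg (surv H S) (nw H θ f) v - 1) 0)

/-- **Nib.** `r` rounds.
Proof (uses `S_StR`, `S_StS`, `S_Rep`; induction on `r`, `κ = 1 - θ`). `r = 0`: `M = ∅`. Step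
`r → r + 1`: `δ ≤ D` since `(1 - 3 θ)^(r+1) ≤ 1`. StS with `c = 1 - κ^r` gives `S`.
`H' := surv H S`, `U' := left U S`, `f' := nw H θ f`, `δ' := δ / (1 - 3 θ)`. `Sys U' H'`
(a surviving triple is disjoint from all members of `S`). Rep for `(U', H', f')` gives `f''`, with
`∑_{H'} f'' ≥ ∑_{H'} f' - ∑_{v ∈ U'} (..)⁺ ≥ ∑_{H'} f' - ∑_{v ∈ U} (..)⁺`, `Frac U' H' f'' δ'`
(StR (4)). `δ' / (1 - 3 θ)^r = δ / (1 - 3 θ)^(r+1) ≤ D`. Induction: a matching `M'` of `H'`,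
`|M'| ≥ (1 - κ^r) ∑ f'' - r (θ² + 2 √D) |U'|`. `M := isol S ∪ M'` is a matching (a member of `M'`
is disjoint from all members of `S`), the union is disjoint (triples are nonempty), so
`|M| = |isol S| + |M'| ≥ (θ + (1 - κ^r) κ) F - (θ² + 2 √δ) |U| - r (θ² + 2 √D) |U|`, and
`θ + κ - κ^(r+1) = 1 - κ^(r+1)`. -/
def S_Nib : Prop := ∀ (θ D : ℝ), 0 ≤ θ → θ ≤ 1 / 6 → D ≤ 1 / 2 → ∀ (r : ℕ) (V : Type)
  [DecidableEq V] (U : Finset V) (H : Finset (Finset V)) (f : Finset V → ℝ) (δ : ℝ),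
  Sys U H → Frac U H f δ → 0 < δ → δ / (1 - 3 * θ) ^ r ≤ D →
  ∃ M, IsMat H M ∧ (1 - (1 - θ) ^ r) * ∑ T ∈ H, f T - r * (θ ^ 2 + 2 * Real.sqrt D) * U.card ≤
    (M.card : ℝ)

/-- **NibF.** The weighted nibble.
Proof (uses `S_Nib`, `S_StR` (5): `3 F ≤ |U|`, so `F ≤ |U|`). Choose `m' ∈ ℕ` with
`exp (-m') ≤ ε/3`, `m ∈ ℕ`, `m ≥ 6`, `m ≥ 3 m'/ε`, `θ := 1/m`, `r := m m'`. Then
`(1 - θ)^r ≤ exp (-θ r) = exp (-m') ≤ ε/3` (`1 - x ≤ exp (-x)`), `r θ² = m'/m ≤ ε/3`;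
`D := min (1/2) ((ε / (6 (r + 1)))²) > 0`, so `2 r √D ≤ ε/3`; `δ := D (1 - 3 θ)^r > 0`. -/
def S_NibF : Prop := ∀ ε : ℝ, 0 < ε → ∃ δ : ℝ, 0 < δ ∧ ∀ (V : Type) [DecidableEq V]
  (U : Finset V) (H : Finset (Finset V)) (f : Finset V → ℝ), Sys U H → Frac U H f δ →
  ∃ M, IsMat H M ∧ ∑ T ∈ H, f T - ε * U.card ≤ (M.card : ℝ)

/-! ## LP duality with capacity -/

/-- **LP.**
Proof. Finite minimax theorem `MPacf82c.minimax` (`Pool/Agent/Lib/MP_acf82c_lc/Minimax.lean`; copy it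
into your file or import it) for the matrix `A W 𝒮 := δ ∑_{T ∈ 𝒮} (1 - |T ∩ W|) + |W|`, rows
`W ⊆ U` (minimizer `p`), columns `𝒮 ⊆ H` (maximizer `q`). `w v := ∑_W p_W 1[v ∈ W]`,
`f T := δ ∑_𝒮 q_𝒮 1[T ∈ 𝒮]`. For every `𝒮`: `δ ∑_{T ∈ 𝒮} (1 - w(T)) + ∑_{v ∈ U} w v ≤ value`; take
`𝒮 = {T ∈ H : w(T) < 1}`. For every `W`: `value ≤ ∑_{T ∈ H} f T (1 - |T ∩ W|) + |W| =
∑ f + ∑_{v ∈ W} (1 - deg f v)`; take `W = {v ∈ U : deg f v > 1}`. (Alternatively Sion's theorem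
`Sion.exists_isSaddlePointOn` on the boxes `[0,1]^V`, `[0,δ]^H`.) -/
def S_LP : Prop := ∀ (V : Type) [DecidableEq V] (U : Finset V) (H : Finset (Finset V)) (δ : ℝ),
  (∀ T ∈ H, T ⊆ U) → 0 ≤ δ → ∃ (f : Finset V → ℝ) (w : V → ℝ),
    (∀ T ∈ H, 0 ≤ f T ∧ f T ≤ δ) ∧ (∀ v, 0 ≤ w v ∧ w v ≤ 1) ∧
    ∑ v ∈ U, w v + δ * ∑ T ∈ H, max (1 - ∑ v ∈ T, w v) 0 ≤
      ∑ T ∈ H, f T - ∑ v ∈ U, max (deg H f v - 1) 0

/-! ## Removal -/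

/-- **RemT.** Tripartite removal lemma.
Proof. `n = 0`: everything is empty. Otherwise the graph `Γ` on `Fin 3 × Fin n` (or
`Fin n ⊕ Fin n ⊕ Fin n`), `(0,x) ~ (1,y)` if `A x y`, `(1,y) ~ (2,z)` if `B y z`, `(2,z) ~ (0,x)` if
`C z x`. A 3-clique of `Γ` has exactly one vertex in every class, so it comes from a triple
`(x,y,z)` with `A x y`, `B y z`, `C z x`: the number of 3-cliques is `≤ η n³`.
`SimpleGraph.triangle_removal` with `ε' = ε/9` (card `= 3 n`), `η := triangleRemovalBound ε'`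
(`η n³ < triangleRemovalBound ε' (3n)³`) gives `Γ' ≤ Γ` without 3-cliques and
`#E(Γ) - #E(Γ') < ε' (3n)² = ε n²`. `DA := {(x,y) : A x y, not Γ'.Adj (0,x) (1,y)}` etc.; the three
sets inject disjointly into `E(Γ) \ E(Γ')`. If `A x y`, `B y z`, `C z x` and none of the three pairs is in
`DA, DB, DC`, then `(0,x), (1,y), (2,z)` is a 3-clique of `Γ'`. -/
def S_RemT : Prop := ∀ ε : ℝ, 0 < ε → ∃ η : ℝ, 0 < η ∧ ∀ (n : ℕ) (A B C : Fin n → Fin n → Prop)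
  (t : Finset (Fin n × Fin n × Fin n)),
  (∀ x y z, A x y → B y z → C z x → (x, y, z) ∈ t) → (t.card : ℝ) ≤ η * (n : ℝ) ^ 3 →
  ∃ DA DB DC : Finset (Fin n × Fin n), ((DA.card + DB.card + DC.card : ℕ) : ℝ) ≤ ε * (n : ℝ) ^ 2 ∧
    ∀ x y z, A x y → B y z → C z x → (x, y) ∈ DA ∨ (y, z) ∈ DB ∨ (z, x) ∈ DC

/-- **RemC.** Repairing an almost cover.
Proof (uses `S_RemT`). Choose `k ≥ 1` with `1/k ≤ ε`, `ε' := ε / (2 (k + 1)^3)`, `η'` from RemT for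
`ε'`, `η := η'/k`. Level `lv e := ⌈k w e⌉₊ ∈ {0, …, k}`, `w e ≤ lv e / k ≤ w e + 1/k`. Let `t` be the set
of the ordered triangles with `lv s(x,y) + lv s(y,z) + lv s(x,z) < k`: then the level sum is `≤ k - 1`,
`w(T) ≤ (k-1)/k` and the defect is `≥ 1/k`; so `|t| ≤ k η n³ = η' n³`. For every
`(a, b, c) ∈ {0..k}³` with `a + b + c < k` apply RemT with `A x y := G.Adj x y ∧ lv s(x,y) = a`,
`B y z := G.Adj y z ∧ lv s(y,z) = b`, `C z x := G.Adj x z ∧ lv s(x,z) = c`. `D ⊆ Sym2` := the image of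
all the sets `DA, DB, DC`: `|D| ≤ (k+1)³ ε' n² = ε n²/2`. `w' e := 0` if `e` is not an edge, `1` if
`e ∈ D`, `lv e / k` otherwise. A triangle has level sum `≥ k` (so `w'(T) ≥ 1`), or an edge in `D`.
`∑ w' ≤ ∑_{ed G} (w e + 1/k) + |D| ≤ ∑ w + |E| ε + ε n²/2`, `|E| ≤ n²/2`. -/
def S_RemC : Prop := ∀ ε : ℝ, 0 < ε → ∃ η : ℝ, 0 < η ∧ ∀ (n : ℕ) (G : SimpleGraph (Fin n))
  (w : Sym2 (Fin n) → ℝ), (∀ e, 0 ≤ w e ∧ w e ≤ 1) →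
  ∑ q ∈ tr G, max (1 - ∑ e ∈ tri q, w e) 0 ≤ η * (n : ℝ) ^ 3 →
  ∃ w' : Sym2 (Fin n) → ℝ, (∀ e, 0 ≤ w' e ∧ w' e ≤ 1) ∧ (∀ e, e ∉ G.edgeSet → w' e = 0) ∧
    (∀ q ∈ tr G, 1 ≤ ∑ e ∈ tri q, w' e) ∧
    ∑ e ∈ ed G, w' e ≤ ∑ e ∈ ed G, w e + ε * (n : ℝ) ^ 2

/-! ## Triangles -/

/-- **Geo.** (1) the triangles of `G` form a linear triple system on the edges; (2) `|ed G| ≤ n²`;
(3) at most `27` ordered triangles give the same triple of edges; (4) a matching gives a triangle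
packing.
Proof. (1) `tri_card`; `tri q ⊆ ed G`; two different triples of edges of triangles have at most one
common edge: two common edges of the triangle `xyz` cover `{x,y,z}` and determine the third edge.
(2) `ed G` is the image of pairs. (3) if `tri q = T` then the three entries of `q` lie in the vertex set
of `T`, which has `3` elements (fix one `q₀` with `tri q₀ = T`; then the entries of `q` are entries of
`q₀`); `27` triples. (4) choose for every `T ∈ M` an ordered triangle `q_T`, `P := {{x,y,z}}`; injective: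
`{x,y,z}` determines `T`; if `|t ∩ s| ≥ 2` then `T`, `T'` have a common edge. -/
def S_Geo : Prop := ∀ (n : ℕ) (G : SimpleGraph (Fin n)),
  Sys (ed G) (hyp G) ∧ (((ed G).card : ℝ) ≤ (n : ℝ) ^ 2) ∧
  (∀ g : Finset (Sym2 (Fin n)) → ℝ, (∀ T, 0 ≤ g T) →
    ∑ q ∈ tr G, g (tri q) ≤ 27 * ∑ T ∈ hyp G, g T) ∧
  ∀ M, IsMat (hyp G) M → ∃ P : Finset (Finset (Fin n)), (∀ t ∈ P, G.IsNClique 3 t) ∧
    (∀ t ∈ P, ∀ s ∈ P, t ≠ s → (t ∩ s).card ≤ 1) ∧ P.card = M.card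

/-- **Main.** Haxell-Roedl for triangles (in dual form).
Proof (uses `S_Rep`, `S_NibF`, `S_LP`, `S_RemC`, `S_Geo`). `δ₀` from NibF for `ε/2`, `η` from RemC for
`ε/2`, `δ := δ₀`, `N ≥ 27/(δ η)`. LP for `U = ed G`, `H = hyp G` gives `f`, `w`;
`val := ∑ f - ∑ (deg f v - 1)⁺`. `3 ∑ f = ∑_{v ∈ U} deg f v ≤ |U| + ∑ (deg f v - 1)⁺`
(`Sys`: double counting), so `val ≤ |U| ≤ n²` and `δ ∑_T (1 - w(T))⁺ ≤ n²`. By Geo (3) the sum of the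
defects over the ordered triangles is `≤ 27 n²/δ ≤ η n³`. Rep gives `f'` with `Frac U H f' δ`,
`∑ f' ≥ val`; NibF gives a matching `M`, `|M| ≥ val - (ε/2) |U| ≥ ∑_{ed G} w - (ε/2) n²`; Geo (4)
gives `P`; RemC gives `w'`, `∑ w' ≤ ∑_{ed G} w + (ε/2) n² ≤ |P| + ε n²`. -/
def S_Main : Prop := ∀ ε : ℝ, 0 < ε → ∃ N : ℕ, ∀ n : ℕ, N ≤ n → ∀ G : SimpleGraph (Fin n),
  ∃ w : Sym2 (Fin n) → ℝ, (∀ e, 0 ≤ w e ∧ w e ≤ 1) ∧ (∀ e, e ∉ G.edgeSet → w e = 0) ∧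
    (∀ x y z, G.Adj x y → G.Adj y z → G.Adj x z → 1 ≤ w s(x, y) + w s(y, z) + w s(x, z)) ∧
    ∃ P : Finset (Finset (Fin n)), (∀ t ∈ P, G.IsNClique 3 t) ∧
      (∀ t ∈ P, ∀ s ∈ P, t ≠ s → (t ∩ s).card ≤ 1) ∧
      ∑ e, w e ≤ (P.card : ℝ) + ε * (n : ℝ) ^ 2

end HR
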